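import Mathlib

/-!
Minimal idempotents in compact right topological semigroups, the group `ε + T + ε`, and
alternating sums over cubes.
-/

set_option autoImplicit false

namespace Pool.Agent.H60Z.HTn

section
variable {S : Type} [AddSemigroup S]

/-- `ε` is a minimal idempotent of `T` -/
structure IsMin (T : Set S) (ε : S) : Prop where
  mem : ε ∈ T
  idem : ε + ε = ε
  min : ∀ x ∈ T, ∃ y ∈ T, y + x + ε = ε

lemma exists_min [TopologicalSpace S] [T2Space S] (hc : ∀ r : S, Continuous (· + r))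
    {T : Set S} (hT : IsCompact T) (hadd : ∀ x ∈ T, ∀ y ∈ T, x + y ∈ T) {f : S} (hf : f ∈ T)
    (hff : f + f = f) : ∃ ε, IsMin T ε ∧ ε + f = ε ∧ f + ε = ε := by
  let P : Set (Set S) := {L | IsClosed L ∧ L.Nonempty ∧ L ⊆ T ∧ ∀ x ∈ T, ∀ l ∈ L, x + l ∈ L}
  have hP : ∀ z ∈ T, (· + z) '' T ∈ P := by
    intro z hz
    refine ⟨(hT.image (hc z)).isClosed, ⟨_, z, hz, rfl⟩, ?_, ?_⟩
    · rintro _ ⟨x, hx, rfl⟩
      exact hadd x hx z hz
    · rintro x hx _ ⟨y, hy, rfl⟩
      exact ⟨x + y, hadd x hx y hy, add_assoc _ _ _⟩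
  obtain ⟨L, hL0, hL⟩ := zorn_superset_nonempty P (fun c hcs hc' hne => by
    refine ⟨⋂₀ c, ⟨isClosed_sInter fun t ht => (hcs ht).1, ?_, ?_, ?_⟩,
      fun s hs => Set.sInter_subset_of_mem hs⟩
    · have : Nonempty c := hne.to_subtype
      rw [Set.sInter_eq_iInter]
      exact IsCompact.nonempty_iInter_of_directed_nonempty_isCompact_isClosed
        (Subtype.val : c → Set S) (DirectedOn.directed_val (IsChain.directedOn hc'.symm))
        (fun i => (hcs i.prop).2.1)
        (fun i => hT.of_isClosed_subset (hcs i.prop).1 (hcs i.prop).2.2.1) (fun i => (hcs i.prop).1)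
    · obtain ⟨t, ht⟩ := hne
      exact (Set.sInter_subset_of_mem ht).trans (hcs ht).2.2.1
    · intro x hx l hl t ht
      exact (hcs ht).2.2.2 x hx l (hl t ht)) _ (hP f hf)
  obtain ⟨h1, h2, h3, h4⟩ := hL.prop
  obtain ⟨e, he, hee⟩ := exists_idempotent_in_compact_add_subsemigroup hc L h2
    (hT.of_isClosed_subset h1 h3) fun x hx y hy => h4 x (h3 hx) y hy
  have hef : e + f = e := by
    obtain ⟨x, -, rfl⟩ := hL0 he
    simp only [add_assoc, hff]
  have hε : f + e ∈ L := h4 f hf e he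
  refine ⟨f + e, ⟨h3 hε, ?_, fun x hx => ?_⟩, ?_, ?_⟩
  · rw [add_assoc, ← add_assoc e, hef, hee]
  · have h5 : x + (f + e) ∈ L := h4 x hx _ hε
    have h6 : (· + (x + (f + e))) '' T ⊆ L := by
      rintro _ ⟨y, hy, rfl⟩
      exact h4 y hy _ h5
    obtain ⟨y, hy, e1⟩ := hL.le_of_le (hP _ (h3 h5)) h6 hε
    exact ⟨y, hy, by rw [add_assoc]; exact e1⟩
  · rw [add_assoc, hef]
  · rw [← add_assoc, hff]

lemma IsMin.eq_of_le {T : Set S} {e g : S} (he : IsMin T e) (hg : g ∈ T) (hgg : g + g = g)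
    (h1 : g + e = g) (h2 : e + g = g) : g = e := by
  obtain ⟨y, -, hy⟩ := he.min g hg
  rw [add_assoc, h1] at hy
  calc g = e + g := h2.symm
    _ = y + g + g := by rw [hy]
    _ = y + g := by rw [add_assoc, hgg]
    _ = e := hy

/-- the group of a minimal idempotent -/
def Corner (T : Set S) (ε : S) : Type := {x : S // x ∈ T ∧ ε + x = x ∧ x + ε = x}

lemma IsMin.exists_neg {T : Set S} (hadd : ∀ x ∈ T, ∀ y ∈ T, x + y ∈ T) {ε : S} (h : IsMin T ε)
    (x : Corner T ε) : ∃ y : Corner T ε, y.1 + x.1 = ε := by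
  obtain ⟨y, hy, e⟩ := h.min x.1 x.2.1
  refine ⟨⟨ε + y + ε, hadd _ (hadd _ h.mem _ hy) _ h.mem, ?_, ?_⟩, ?_⟩
  · rw [← add_assoc, ← add_assoc, h.idem]
  · rw [add_assoc, h.idem]
  · rw [add_assoc, x.2.2.2] at e
    rw [add_assoc, x.2.2.1, add_assoc, e, h.idem]

/-- the group structure -/
@[reducible] noncomputable def IsMin.group {T : Set S} (hadd : ∀ x ∈ T, ∀ y ∈ T, x + y ∈ T)
    {ε : S} (h : IsMin T ε) : AddGroup (Corner T ε) :=
  letI : Add (Corner T ε) := ⟨fun x y => ⟨x.1 + y.1, hadd _ x.2.1 _ y.2.1,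
    by rw [← add_assoc, x.2.2.1], by rw [add_assoc, y.2.2.2]⟩⟩
  letI : Zero (Corner T ε) := ⟨⟨ε, h.mem, h.idem, h.idem⟩⟩
  letI : Neg (Corner T ε) := ⟨fun x => (h.exists_neg hadd x).choose⟩
  AddGroup.ofLeftAxioms (fun x y z => Subtype.ext (add_assoc x.1 y.1 z.1))
    (fun x => Subtype.ext x.2.2.1) fun x => Subtype.ext (h.exists_neg hadd x).choose_spec

end

section
variable {H κ : Type} [AddGroup H] [DecidableEq κ]

/-- the alternating sum over a cube -/
def cube : List κ → (Finset κ → H) → H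
  | [], x => x ∅
  | j :: l, x => cube l x - cube l fun s => x (insert j s)

variable {X : Type} {φ : H → X}

lemma cube_congr (hφ : ∀ x x' y y', φ x = φ x' → φ y = φ y' → φ (x - y) = φ (x' - y'))
    (l : List κ) : ∀ x x' : Finset κ → H, (∀ s, φ (x s) = φ (x' s)) →
      φ (cube l x) = φ (cube l x') := by
  induction l with
  | nil => exact fun x x' h => h ∅
  | cons j l ih => exact fun x x' h => hφ _ _ _ _ (ih _ _ h) (ih _ _ fun s => h _)

lemma cube_kill (hφ : ∀ x x' y y', φ x = φ x' → φ y = φ y' → φ (x - y) = φ (x' - y'))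
    (j : κ) (l : List κ) (hj : j ∈ l) : ∀ x : Finset κ → H, (∀ s, φ (x (insert j s)) = φ (x s)) →
      φ (cube l x) = φ 0 := by
  induction l with
  | nil => simp at hj
  | cons i l ih =>
    intro x h
    rcases List.mem_cons.1 hj with rfl | hj
    · rw [cube, hφ _ _ _ _ rfl (cube_congr hφ l _ _ h), sub_self]
    · rw [cube, hφ _ _ _ _ (ih hj x h) (ih hj _ fun s => by rw [Finset.insert_comm]; exact h _),
        sub_self]

lemma cube_top (hφ : ∀ x x' y y', φ x = φ x' → φ y = φ y' → φ (x - y) = φ (x' - y'))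
    (w : H) (l : List κ) (hl : l ≠ []) (x : Finset κ → H) (h0 : φ (x ∅) = φ 0)
    (h : ∀ s, s.Nonempty → φ (x s) = φ w) : φ (cube l x) = φ (0 - w) := by
  induction l with
  | nil => exact absurd rfl hl
  | cons i l ih =>
    rw [cube]
    cases l with
    | nil => exact hφ _ _ _ _ h0 (h _ (Finset.insert_nonempty _ _))
    | cons j l =>
      rw [hφ _ _ _ _ (ih (by simp)) (cube_kill hφ j _ List.mem_cons_self _ fun s => by
        rw [h _ (Finset.insert_nonempty _ _), h _ (Finset.insert_nonempty _ _)]), sub_zero]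

end

/-- If the points `m s` of a cube are collapsed in direction `j` by `φ j` and are all equal to `w`
for `ψ`, except for the origin, then some point of the group is trivial for all `φ j` and is
`w` for `ψ`. -/
lemma axis {S S' κ : Type} [AddSemigroup S] [AddSemigroup S'] [Fintype κ] [DecidableEq κ]
    [Nonempty κ] {T : Set S} (hadd : ∀ x ∈ T, ∀ y ∈ T, x + y ∈ T) {ε : S} (h : IsMin T ε)
    (φ : κ → S → S') (hφ : ∀ j x y, φ j (x + y) = φ j x + φ j y) (ψ : S → S')
    (hψ : ∀ x y, ψ (x + y) = ψ x + ψ y) (m : Finset κ → S) (hm : ∀ s, m s ∈ T)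
    (h1 : ∀ j s, φ j (m (insert j s)) = φ j (m s)) (w : S') (h2 : ψ (m ∅) + ψ ε = ψ ε)
    (h3 : ∀ s, s.Nonempty → ψ (m s) = w) :
    ∃ z ∈ T, ε + z = z ∧ z + ε = z ∧ (∀ j, φ j z = φ j ε) ∧ ψ z = ψ ε + w + ψ ε := by
  let _ := h.group hadd
  have hv : ∀ x y : Corner T ε, (x + y).1 = x.1 + y.1 := fun _ _ => rfl
  have h0 : (0 : Corner T ε).1 = ε := rfl
  have key : ∀ χ : S → S', (∀ x y, χ (x + y) = χ x + χ y) → ∀ x x' y y' : Corner T ε,
      χ x.1 = χ x'.1 → χ y.1 = χ y'.1 → χ (x - y).1 = χ (x' - y').1 := by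
    intro χ hχ x x' y y' e1 e2
    have e3 : χ (-y).1 = χ (-y').1 := by
      calc χ (-y).1 = χ (-y + (y' + -y')).1 := by rw [add_neg_cancel, add_zero]
        _ = χ (-y).1 + (χ y.1 + χ (-y').1) := by rw [hv, hv, hχ, hχ, e2]
        _ = χ (-y + (y + -y')).1 := by rw [hv, hv, hχ, hχ]
        _ = χ (-y').1 := by rw [neg_add_cancel_left]
    rw [sub_eq_add_neg, sub_eq_add_neg, hv, hv, hχ, hχ, e1, e3]
  let x : Finset κ → Corner T ε := fun s => ⟨ε + m s + ε, hadd _ (hadd _ h.mem _ (hm s)) _ h.mem,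
    by rw [← add_assoc, ← add_assoc, h.idem], by rw [add_assoc, h.idem]⟩
  let z := 0 - cube (Finset.univ : Finset κ).toList x
  refine ⟨z.1, z.2.1, z.2.2.1, z.2.2.2, fun j => ?_, ?_⟩
  · have := cube_kill (φ := fun y : Corner T ε => φ j y.1) (key _ (hφ j)) j
      (Finset.univ : Finset κ).toList (by simp) x fun s => by simp only [x, hφ, h1]
    rw [key _ (hφ j) _ _ _ _ rfl this, sub_zero, h0]
  · have hne : (Finset.univ : Finset κ).Nonempty := Finset.univ_nonempty
    have := cube_top (φ := fun y : Corner T ε => ψ y.1) (key _ hψ) (x Finset.univ)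
      (Finset.univ : Finset κ).toList (by simpa using hne.ne_empty) x
      (by simp only [x, hψ, h0]; rw [add_assoc, h2, ← hψ, h.idem])
      fun s hs => by simp only [x, hψ, h3 s hs, h3 _ hne]
    rw [key _ hψ _ _ _ _ rfl this, zero_sub (x _), zero_sub, neg_neg]
    simp only [x, hψ, h3 _ hne]

end Pool.Agent.H60Z.HTn
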