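import Pool.Agent.H60Z.HTn.A

/-!
Ultrafilters all of whose members contain the finite sums of arbitrarily long finite sequences.
-/

set_option autoImplicit false

open Filter Finset

namespace Pool.Agent.H60Z.HTn

attribute [local instance] Ultrafilter.add Ultrafilter.addSemigroup

lemma fut_inf (χ : Finset ℕ → Bool) : ∃ (J : ℕ → Finset ℕ) (c : Bool), (∀ i, (J i).Nonempty) ∧
    (∀ i j, i ≠ j → Disjoint (J i) (J j)) ∧ ∀ s : Finset ℕ, s.Nonempty → χ (s.biUnion J) = c := by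
  have h1 : ∀ (a : Stream' (Multiset ℕ)) (m : Multiset ℕ), m ∈ Hindman.FS a → ∀ k,
      (∀ i, a.get i = {k + i}) → m.Nodup ∧ m ≠ 0 ∧ ∀ x ∈ m, k ≤ x := by
    intro a m h
    induction h with
    | head' a =>
      intro k hk
      have : a.head = {k} := hk 0
      simp [this]
    | tail' a m _ ih =>
      intro k hk
      obtain ⟨e1, e2, e3⟩ := ih (k + 1) fun i => by
        rw [Stream'.get_tail, hk]; congr 1; omega
      exact ⟨e1, e2, fun x hx => by have := e3 x hx; omega⟩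
    | cons' a m _ ih =>
      intro k hk
      obtain ⟨e1, e2, e3⟩ := ih (k + 1) fun i => by
        rw [Stream'.get_tail, hk]; congr 1; omega
      have : a.head = {k} := hk 0
      rw [this, Multiset.singleton_add, Multiset.nodup_cons]
      refine ⟨⟨fun h => ?_, e1⟩, by simp, fun x hx => ?_⟩
      · have := e3 k h
        omega
      · rcases Multiset.mem_cons.1 hx with rfl | hx
        · exact le_rfl
        · have := e3 x hx
          omega
  let A : Bool → Set (Multiset ℕ) := fun c => {m | m.Nodup ∧ m ≠ 0 ∧ χ m.toFinset = c}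
  obtain ⟨_, ⟨c, rfl⟩, b, hb⟩ := Hindman.FS_partition_regular (fun i => ({i} : Multiset ℕ))
    (Set.range A) (Set.finite_range A) fun m hm => by
      obtain ⟨e1, e2, -⟩ := h1 _ m hm 0 fun i => by rw [Nat.zero_add]; rfl
      exact ⟨_, ⟨χ m.toFinset, rfl⟩, e1, e2, rfl⟩
  have h2 : ∀ i j, i < j → Disjoint (b.get i).toFinset (b.get j).toFinset := fun i j h =>
    Multiset.disjoint_toFinset.2 (Multiset.nodup_add.1 (hb (Hindman.FS.add_two b i j h)).1).2.2
  refine ⟨fun i => (b.get i).toFinset, c, fun i => ?_, fun i j h => ?_, fun s hs => ?_⟩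
  · exact Multiset.toFinset_nonempty.2 (hb (Hindman.FS.singleton b i)).2.1
  · rcases lt_or_gt_of_ne h with h | h
    · exact h2 i j h
    · exact (h2 j i h).symm
  · rw [← (hb (Hindman.FS.finsetSum b s hs)).2.2]
    congr 1
    ext x
    simp

lemma fut (m : ℕ) : ∃ N, ∀ χ : Finset ℕ → Bool, ∃ (J : ℕ → Finset ℕ) (c : Bool),
    (∀ i, (J i).Nonempty) ∧ (∀ i < m, J i ⊆ range N) ∧ (∀ i j, i ≠ j → Disjoint (J i) (J j)) ∧
      ∀ s ⊆ range m, s.Nonempty → χ (s.biUnion J) = c := by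
  classical
  by_contra hc
  simp only [not_exists, not_forall] at hc
  choose χ hχ using hc
  let U := hyperfilter ℕ
  let χ' : Finset ℕ → Bool := fun s => decide (∀ᶠ N in U, χ N s = true)
  have h1 : ∀ s, ∀ᶠ N in U, χ N s = χ' s := by
    intro s
    by_cases h : ∀ᶠ N in U, χ N s = true
    · simpa only [χ', h, decide_true] using h
    · have := Ultrafilter.eventually_not.2 h
      simpa only [χ', h, decide_false, Bool.not_eq_true] using this
  obtain ⟨J, c, h2, h3, h4⟩ := fut_inf χ'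
  have h5 : ∀ᶠ N in U, ∀ s ∈ (range m).powerset, χ N (s.biUnion J) = χ' (s.biUnion J) :=
    (eventually_all_finset _).2 fun s _ => h1 _
  have h6 : ∀ᶠ N in U, ((range m).biUnion J).sup id < N :=
    Nat.hyperfilter_le_atTop (eventually_gt_atTop _)
  obtain ⟨N, e1, e2⟩ := (h5.and h6).exists
  refine hχ N J c ⟨h2, fun i hi x hx => mem_range.2 (lt_of_le_of_lt ?_ e2), h3,
    fun s hs hs' => (e1 s (mem_powerset.2 hs)).trans (h4 s hs')⟩
  exact le_sup (f := id) (mem_biUnion.2 ⟨i, mem_range.2 hi, hx⟩)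

lemma exists_ultra {α : Type} (F : Set α → Prop) (h0 : ¬ F ∅) (h1 : F Set.univ)
    (hm : ∀ A B, A ⊆ B → F A → F B) (hu : ∀ A B, F (A ∪ B) → F A ∨ F B) :
    ∃ p : Ultrafilter α, ∀ A ∈ p, F A := by
  let G : Filter α :=
    { sets := {E | ¬ F Eᶜ}
      univ_sets := by simpa using h0
      sets_of_superset := fun h e h' => h (hm _ _ (Set.compl_subset_compl.2 e) h')
      inter_sets := fun h h' e => by
        rw [Set.compl_inter] at e
        exact (hu _ _ e).elim h h' }
  have : G.NeBot := ⟨fun h => by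
    have : (∅ : Set α) ∈ G := by rw [h]; exact mem_bot
    exact this (by simpa using h1)⟩
  refine ⟨Ultrafilter.of G, fun A hA => ?_⟩
  by_contra hc
  have : Aᶜ ∈ G := by
    change ¬ F Aᶜᶜ
    rwa [compl_compl]
  exact Ultrafilter.compl_notMem_iff.2 hA (Ultrafilter.of_le G this)

section
variable {M M' : Type} [AddCommMonoid M] [AddCommMonoid M']

/-- `W` contains the nonempty finite sums of a sequence of length `m` -/
def IP (m : ℕ) (W : Set M) : Prop :=
  ∃ a : ℕ → M, ∀ s ⊆ range m, s.Nonempty → ∑ i ∈ s, a i ∈ W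

lemma IP.mono {m n : ℕ} {W W' : Set M} (h : IP m W) (hn : n ≤ m) (e : W ⊆ W') : IP n W' := by
  obtain ⟨a, ha⟩ := h
  exact ⟨a, fun s hs hs' => e (ha s (hs.trans (range_subset_range.2 hn)) hs')⟩

lemma IP.nonempty {W : Set M} (h : IP 1 W) : W.Nonempty := by
  obtain ⟨a, ha⟩ := h
  exact ⟨_, ha {0} (by simp) (by simp)⟩

lemma ip_union (m : ℕ) : ∃ N, ∀ A B : Set M, IP N (A ∪ B) → IP m A ∨ IP m B := by
  classical
  obtain ⟨N, hN⟩ := fut m
  refine ⟨N, ?_⟩
  rintro A B ⟨a, ha⟩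
  obtain ⟨J, c, h1, h2, h3, h4⟩ := hN fun s => decide (∑ i ∈ s, a i ∈ A)
  have h5 : ∀ s : Finset ℕ, ∑ i ∈ s, ∑ j ∈ J i, a j = ∑ j ∈ s.biUnion J, a j := fun s =>
    (sum_biUnion fun i _ j _ h => h3 i j h).symm
  cases c
  · refine Or.inr ⟨fun i => ∑ j ∈ J i, a j, fun s hs hs' => ?_⟩
    rw [h5]
    refine (ha _ (biUnion_subset.2 fun i hi => h2 i (mem_range.1 (hs hi))) ?_).resolve_left
      (by simpa using h4 s hs hs')
    obtain ⟨i, hi⟩ := hs'
    exact (h1 i).mono (subset_biUnion_of_mem J hi)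
  · refine Or.inl ⟨fun i => ∑ j ∈ J i, a j, fun s hs hs' => ?_⟩
    rw [h5]
    simpa using h4 s hs hs'

/-- ultrafilters all of whose members are `IP m` for all `m` -/
def KK (M : Type) [AddCommMonoid M] : Set (Ultrafilter M) := {p | ∀ W ∈ p, ∀ m, IP m W}

lemma exists_KK (G : Filter M) (h : ∀ A ∈ G, ∀ m, IP m A) : ∃ p ∈ KK M, (p : Filter M) ≤ G := by
  obtain ⟨p, hp⟩ := exists_ultra (fun E : Set M => ∀ A ∈ G, ∀ m, IP m (E ∩ A))
    (fun h0 => by simpa using (h0 _ univ_mem 1).nonempty) (by simpa using h)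
    (fun A B e h1 C hC m => (h1 C hC m).mono le_rfl (Set.inter_subset_inter_left _ e))
    (fun A B h1 => by
      by_contra hc
      simp only [not_or, not_forall] at hc
      obtain ⟨⟨C, hC, m, e1⟩, D, hD, n, e2⟩ := hc
      obtain ⟨N, hN⟩ := ip_union (M := M) (max m n)
      have := h1 _ (inter_mem hC hD) N
      rw [Set.union_inter_distrib_right] at this
      rcases hN _ _ this with h2 | h2
      · exact e1 (h2.mono (le_max_left _ _) fun x hx => ⟨hx.1, hx.2.1⟩)
      · exact e2 (h2.mono (le_max_right _ _) fun x hx => ⟨hx.1, hx.2.2⟩))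
  refine ⟨p, fun W hW m => by simpa using hp W hW _ univ_mem m, fun A hA => ?_⟩
  by_contra hc
  simpa using (hp _ (Ultrafilter.compl_mem_iff_notMem.2 hc) A hA 1).nonempty

lemma isClosed_KK : IsClosed (KK M) := by
  have : KK M = ⋂ W : Set M, ⋂ (_ : ¬ ∀ m, IP m W), {p : Ultrafilter M | Wᶜ ∈ p} := by
    ext p
    simp only [KK, Set.mem_iInter, Set.mem_ofPred_eq, Ultrafilter.compl_mem_iff_notMem]
    exact forall_congr' fun W => not_imp_not.symm
  rw [this]
  exact isClosed_iInter fun W => isClosed_iInter fun _ => ultrafilter_isClosed_basic _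

lemma mem_add {p q : Ultrafilter M} {W : Set M} :
    W ∈ p + q ↔ ∀ᶠ x in p, ∀ᶠ y in q, x + y ∈ W := Iff.rfl

lemma add_mem_KK {p q : Ultrafilter M} (hp : p ∈ KK M) (hq : q ∈ KK M) : p + q ∈ KK M := by
  intro W hW m
  obtain ⟨a, ha⟩ := hp _ (mem_add.1 hW) m
  have h1 : ∀ᶠ y in q, ∀ s ∈ (range m).powerset, s.Nonempty → ∑ i ∈ s, a i + y ∈ W :=
    (eventually_all_finset _).2 fun s hs => by
      by_cases h : s.Nonempty
      · exact (ha s (mem_powerset.1 hs) h).mono fun y hy _ => hy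
      · exact Eventually.of_forall fun _ h' => absurd h' h
  obtain ⟨b, hb⟩ := hq _ h1 m
  refine ⟨fun i => a i + b i, fun s hs hs' => ?_⟩
  rw [sum_add_distrib]
  exact hb s hs hs' s (mem_powerset.2 hs) hs'

lemma map_mem_KK (f : M →+ M') {p : Ultrafilter M} (hp : p ∈ KK M) : p.map f ∈ KK M' := by
  intro W hW m
  obtain ⟨a, ha⟩ := hp _ (Ultrafilter.mem_map.1 hW) m
  exact ⟨fun i => f (a i), fun s hs hs' => by rw [← map_sum]; exact ha s hs hs'⟩

lemma map_add' (f : M →+ M') (p q : Ultrafilter M) : (p + q).map f = p.map f + q.map f := by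
  ext W
  simp only [Ultrafilter.mem_map, mem_add, Set.mem_preimage, map_add, Ultrafilter.coe_map,
    eventually_map]

lemma idem_mem_KK {p : Ultrafilter M} (hp : p + p = p) : p ∈ KK M := by
  intro W hW m
  obtain ⟨a, ha⟩ := Hindman.exists_FS_of_large p hp W hW
  exact ⟨fun i => a.get i, fun s _ hs => ha (Hindman.FS.finsetSum a s hs)⟩

lemma split (ι : Type) [Fintype ι] {p : Ultrafilter M} (hp : p ∈ KK M) :
    ∃ ω ∈ KK (ι → M), ∀ s : Finset ι, s.Nonempty → ω.map (fun y => ∑ i ∈ s, y i) = p := by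
  classical
  let G : Filter (ι → M) :=
    { sets := {E | ∃ A ∈ p, ∀ y : ι → M, (∀ s : Finset ι, s.Nonempty → ∑ i ∈ s, y i ∈ A) → y ∈ E}
      univ_sets := ⟨_, univ_mem, fun _ _ => trivial⟩
      sets_of_superset := fun ⟨A, h1, h2⟩ e => ⟨A, h1, fun y hy => e (h2 y hy)⟩
      inter_sets := fun ⟨A, h1, h2⟩ ⟨B, h3, h4⟩ => ⟨A ∩ B, inter_mem h1 h3, fun y hy =>
        ⟨h2 y fun s hs => (hy s hs).1, h4 y fun s hs => (hy s hs).2⟩⟩ }
  obtain ⟨ω, h1, h2⟩ := exists_KK G (by
    rintro E ⟨A, hA, hE⟩ m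
    let g : ℕ × ι → ℕ := fun x => Nat.pair x.1 (Fintype.equivFin ι x.2)
    have hg : Function.Injective g := by
      rintro ⟨j, i⟩ ⟨j', i'⟩ h
      simp only [g, Nat.pair_eq_pair, Fin.val_inj, EmbeddingLike.apply_eq_iff_eq] at h
      exact Prod.ext h.1 h.2
    obtain ⟨a, ha⟩ := hp A hA ((range m ×ˢ (univ : Finset ι)).sup g + 1)
    refine ⟨fun j i => a (g (j, i)), fun s hs hs' => hE _ fun t ht => ?_⟩
    have := ha ((s ×ˢ t).image g) (image_subset_iff.2 fun x hx => mem_range.2 (Nat.lt_succ_of_le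
      (le_sup (f := g) (mem_product.2 ⟨hs (mem_product.1 hx).1, mem_univ _⟩))))
      ((hs'.product ht).image g)
    rw [sum_image fun x _ y _ h => hg h, sum_product, sum_comm] at this
    simpa only [Finset.sum_apply] using this)
  refine ⟨ω, h1, fun s hs => Ultrafilter.eq_of_le fun A hA => ?_⟩
  exact h2 (show _ ∈ G from ⟨A, hA, fun y hy => hy s hs⟩)

end

lemma dvd_of_KK {p : Ultrafilter ℕ} (hp : p ∈ KK ℕ) {r : ℕ} (hr : 0 < r) : ∀ᶠ x in p, r ∣ x := by
  by_contra hc
  obtain ⟨a, ha⟩ := hp _ (Ultrafilter.eventually_not.2 hc) r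
  obtain ⟨i, hi, j, hj, h1, h2⟩ := exists_ne_map_eq_of_card_lt_of_maps_to
    (s := range (r + 1)) (t := range r) (by simp) (f := fun k => (∑ i ∈ range k, a i) % r)
    fun k _ => mem_coe.2 (mem_range.2 (Nat.mod_lt _ hr))
  wlog h : i < j generalizing i j
  · exact this j hj i hi h1.symm h2.symm (by omega)
  refine ha (Ico i j) (fun x hx => ?_) (nonempty_Ico.2 h) ?_
  · have := mem_Ico.1 hx
    have := mem_range.1 hj
    exact mem_range.2 (by omega)
  · rw [← sum_range_add_sum_Ico _ h.le] at h2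
    exact (Nat.modEq_iff_dvd' (Nat.le_add_right _ _)).1 h2 |>.trans (by simp)

end Pool.Agent.H60Z.HTn
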