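import Pool.Agent.H60Z.HTn.B

/-!
Independence of non-proportional linear forms in the group of a minimal idempotent.
-/

set_option autoImplicit false

open Filter Finset

namespace Pool.Agent.H60Z.HTn

attribute [local instance] Ultrafilter.add Ultrafilter.addSemigroup

section
variable {M M' : Type} [AddCommMonoid M] [AddCommMonoid M']

/-- the divisible part of `KK M` -/
def TT (M : Type) [AddCommMonoid M] : Set (Ultrafilter M) :=
  {p | p ∈ KK M ∧ ∀ φ : M →+ ℚ, {x | ∃ k : ℤ, φ x = k} ∈ p}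

lemma isClosed_TT : IsClosed (TT M) := by
  have : TT M = KK M ∩ ⋂ φ : M →+ ℚ, {p : Ultrafilter M | {x | ∃ k : ℤ, φ x = k} ∈ p} := by
    ext p
    simp only [TT, Set.mem_iInter, Set.mem_ofPred_eq, Set.mem_inter_iff]
  rw [this]
  exact isClosed_KK.inter (isClosed_iInter fun _ => ultrafilter_isClosed_basic _)

lemma add_mem_TT (p : Ultrafilter M) (hp : p ∈ TT M) (q : Ultrafilter M) (hq : q ∈ TT M) :
    p + q ∈ TT M := by
  refine ⟨add_mem_KK hp.1 hq.1, fun φ => mem_add.2 ?_⟩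
  filter_upwards [hp.2 φ] with x ⟨k, hk⟩
  filter_upwards [hq.2 φ] with y ⟨l, hl⟩
  exact ⟨k + l, by rw [map_add, hk, hl, Int.cast_add]⟩

lemma map_mem_TT (f : M →+ M') {p : Ultrafilter M} (hp : p ∈ TT M) : p.map f ∈ TT M' :=
  ⟨map_mem_KK f hp.1, fun φ => Ultrafilter.mem_map.2 (hp.2 (φ.comp f))⟩

lemma split_TT (ι : Type) [Fintype ι] {p : Ultrafilter M} (hp : p ∈ TT M) :
    ∃ ω ∈ TT (ι → M), ∀ s : Finset ι, s.Nonempty → ω.map (fun y => ∑ i ∈ s, y i) = p := by
  classical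
  obtain ⟨ω, h1, h2⟩ := split ι hp.1
  refine ⟨ω, ⟨h1, fun φ => ?_⟩, h2⟩
  have h3 : ∀ i, ∀ᶠ y : ι → M in ω, ∃ k : ℤ, φ (Pi.single i (y i)) = k := by
    intro i
    have := hp.2 (φ.comp (AddMonoidHom.single (fun _ => M) i))
    rw [← h2 {i} (singleton_nonempty i), Ultrafilter.mem_map] at this
    change {y : ι → M | ∃ k : ℤ, φ (Pi.single i (y i)) = k} ∈ ω
    simpa using this
  filter_upwards [eventually_all.2 h3] with y hy
  choose k hk using hy
  refine ⟨∑ i, k i, ?_⟩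
  conv_lhs => rw [← univ_sum_single y]
  simp only [map_sum, hk, Int.cast_sum]

lemma pure_zero_add (p : Ultrafilter M) : (pure 0 : Ultrafilter M) + p = p := by
  ext W
  simp [mem_add]

lemma isMin_map (f : M →+ M') (g : M' →+ M) (hfg : ∀ x, f (g x) = x)
    {e : Ultrafilter M} (he : IsMin (TT M) e) : IsMin (TT M') (e.map f) := by
  refine ⟨map_mem_TT f he.mem, by rw [← map_add', he.idem], fun x hx => ?_⟩
  obtain ⟨y, hy, h⟩ := he.min _ (map_mem_TT g hx)
  refine ⟨_, map_mem_TT f hy, ?_⟩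
  have : (x.map g).map f = x := by
    rw [Ultrafilter.map_map, show (f ∘ g : M' → M') = id from funext hfg, Ultrafilter.map_id]
  rw [← this, ← map_add', ← map_add', h]

end

lemma mem_TT_nat {p : Ultrafilter ℕ} (hp : p ∈ KK ℕ) : p ∈ TT ℕ := by
  refine ⟨hp, fun φ => ?_⟩
  filter_upwards [dvd_of_KK hp (φ 1).den_pos] with x ⟨k, hk⟩
  refine ⟨k * (φ 1).num, ?_⟩
  have : φ x = x * φ 1 := by
    rw [← nsmul_eq_mul, ← map_nsmul, smul_eq_mul, mul_one]
  rw [this, hk]
  push_cast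
  rw [mul_comm ((φ 1).den : ℚ), mul_assoc, mul_comm ((φ 1).den : ℚ), Rat.mul_den_eq_num]

theorem adjust {V κ : Type} [AddCommGroup V] [Module ℚ V] [Fintype κ] [DecidableEq κ]
    [Nontrivial κ] (l : κ → V →ₗ[ℚ] ℚ) (v : κ → κ → V)
    (hv : ∀ i j, j ≠ i → l j (v i j) = 0 ∧ l i (v i j) = 1) {ε : Ultrafilter V}
    (hε : IsMin (TT V) ε) (W : κ → Ultrafilter ℚ) (hW : ∀ i, W i ∈ TT ℚ) (I : Finset κ) :
    ∃ z ∈ TT V, ∀ i, z.map (l i) =
      if i ∈ I then ε.map (l i) + W i + ε.map (l i) else ε.map (l i) := by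
  have hl : ∀ i (x y : Ultrafilter V), (x + y).map (l i) = x.map (l i) + y.map (l i) :=
    fun i => map_add' (l i).toAddMonoidHom
  have he : ∀ i, ε.map (l i) + ε.map (l i) = ε.map (l i) := fun i => by rw [← hl, hε.idem]
  induction I using Finset.induction_on with
  | empty => exact ⟨ε, hε.mem, fun i => by simp⟩
  | insert i I hi ih =>
    obtain ⟨z, hz, h1⟩ := ih
    have : Nonempty {j // j ≠ i} := by
      obtain ⟨j, hj⟩ := exists_ne i
      exact ⟨⟨j, hj⟩⟩
    obtain ⟨ω, h2, h3⟩ := split_TT {j // j ≠ i} (hW i)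
    let f : Finset {j // j ≠ i} → ({j // j ≠ i} → ℚ) →+ V := fun s =>
      { toFun := fun y => ∑ j ∈ s, y j • v i j
        map_zero' := by simp
        map_add' := fun x y => by simp [add_smul, sum_add_distrib] }
    have hf : ∀ s y, f s y = ∑ j ∈ s, y j • v i j := fun _ _ => rfl
    obtain ⟨z', h4, -, -, h5, h6⟩ := axis add_mem_TT hε (fun j : {j // j ≠ i} => Ultrafilter.map (l j))
      (fun j => hl j) (Ultrafilter.map (l i)) (hl i) (fun s => ω.map (f s))
      (fun s => map_mem_TT _ h2)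
      (fun j s => by
        simp only [Ultrafilter.map_map]
        congr 1
        funext y
        by_cases hj : j ∈ s
        · rw [insert_eq_of_mem hj]
        · simp [hf, sum_insert hj, (hv i j j.2).1]) (W i)
      (by
        have : (ω.map (f ∅)).map (l i) = pure 0 := by
          rw [Ultrafilter.map_map]
          ext A
          have : (l i ∘ f ∅) = fun _ => 0 := funext fun y => by simp [hf]
          by_cases hA : (0 : ℚ) ∈ A
          · simpa [this, hA] using Ultrafilter.mem_coe.1 (univ_mem (f := ω.toFilter))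
          · simp [this, hA]
        rw [this, pure_zero_add])
      (fun s hs => by
        rw [← h3 s hs, Ultrafilter.map_map]
        congr 1
        funext y
        simp only [Function.comp, hf, map_sum, map_smul, smul_eq_mul]
        exact sum_congr rfl fun j _ => by rw [(hv i j j.2).2, mul_one])
    refine ⟨z + z', add_mem_TT _ hz _ h4, fun j => ?_⟩
    rw [hl, h1]
    by_cases hj : j = i
    · subst hj
      rw [if_neg hi, if_pos (mem_insert_self _ _), h6, ← add_assoc, ← add_assoc, he]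
    · have := h5 ⟨j, hj⟩
      dsimp only at this
      rw [this]
      by_cases hj' : j ∈ I
      · rw [if_pos hj', if_pos (mem_insert_of_mem hj'), add_assoc, he]
      · rw [if_neg hj', if_neg (by simp [hj, hj']), he]

/-- the five forms -/
def form (i : Fin 5) : ℚ × ℚ →ₗ[ℚ] ℚ :=
  (![1, 0, 1, 1, 2] i : ℚ) • LinearMap.fst ℚ ℚ ℚ + (![0, 1, 1, 2, 1] i : ℚ) • LinearMap.snd ℚ ℚ ℚ

lemma exists_dir : ∃ v : Fin 5 → Fin 5 → ℚ × ℚ,
    ∀ i j, j ≠ i → form j (v i j) = 0 ∧ form i (v i j) = 1 := by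
  let a : Fin 5 → ℚ := ![1, 0, 1, 1, 2]
  let b : Fin 5 → ℚ := ![0, 1, 1, 2, 1]
  refine ⟨fun i j => (b j / (a i * b j - b i * a j), - a j / (a i * b j - b i * a j)), ?_⟩
  intro i j h
  fin_cases i <;> fin_cases j <;> simp [form, a, b] at h ⊢ <;> norm_num

/-- multiplication by a rational number -/
def sc (r : ℚ) : ℚ →+ ℚ := AddMonoidHom.mulLeft r

theorem adjust_rat {ζ : Ultrafilter ℚ} (hζ : IsMin (TT ℚ) ζ) {b1 b2 : Ultrafilter ℚ}
    (h1 : b1 ∈ TT ℚ) (h2 : b2 ∈ TT ℚ) : ∃ z : Ultrafilter (ℚ × ℚ),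
      z.map (form 0) = ζ ∧ z.map (form 1) = ζ ∧
      z.map (form 2) + b1 + ζ = ζ.map (sc 2) + ζ ∧
      z.map (form 3) + b1 + (ζ.map (sc 2) + ζ) = ζ.map (sc 3) + ζ ∧
      z.map (form 4) + b2 + ζ = ζ.map (sc 3) + ζ := by
  let d : ℚ →+ ℚ × ℚ := (AddMonoidHom.id ℚ).prod (AddMonoidHom.id ℚ)
  obtain ⟨ε, hε, e1, e2⟩ := exists_min Ultrafilter.continuous_add_left isClosed_TT.isCompact
    add_mem_TT (map_mem_TT d hζ.mem) (by rw [← map_add', hζ.idem])
  have hs : ∀ r : ℚ, r ≠ 0 → IsMin (TT ℚ) (ζ.map (sc r)) := fun r hr =>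
    isMin_map (sc r) (sc r⁻¹) (fun x => by simp [sc, hr]) hζ
  have hl : ∀ i (x y : Ultrafilter (ℚ × ℚ)),
      (x + y).map (form i) = x.map (form i) + y.map (form i) :=
    fun i => map_add' (form i).toAddMonoidHom
  have he : ∀ i (r : ℚ), r ≠ 0 → (∀ x, form i (x, x) = r * x) → ε.map (form i) = ζ.map (sc r) := by
    intro i r hr h
    have h3 : (ζ.map d).map (form i) = ζ.map (sc r) := by
      rw [Ultrafilter.map_map]
      congr 1
      exact funext h
    exact (hs r hr).eq_of_le (map_mem_TT (form i).toAddMonoidHom hε.mem) (by rw [← hl, hε.idem])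
      (by rw [← h3, ← hl, e1]) (by rw [← h3, ← hl, e2])
  have h0 : ζ.map (sc 1) = ζ := by
    rw [show (sc 1 : ℚ → ℚ) = id from funext fun x => by simp [sc], Ultrafilter.map_id]
  have solve : ∀ e x, IsMin (TT ℚ) e → x ∈ TT ℚ → ∃ y ∈ TT ℚ, e + y + e + x + ζ = e + ζ := by
    intro e x he hx
    obtain ⟨y, hy, h⟩ := hζ.min _ (add_mem_TT _ he.mem _ hx)
    exact ⟨y, hy, by simp only [add_assoc] at h ⊢; rw [h]⟩
  obtain ⟨y2, a2, c2⟩ := solve _ _ (hs 2 (by norm_num)) h1
  obtain ⟨y3, a3, c3⟩ := solve _ _ (hs 3 (by norm_num))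
    (add_mem_TT _ h1 _ (hs 2 (by norm_num)).mem)
  obtain ⟨y4, a4, c4⟩ := solve _ _ (hs 3 (by norm_num)) h2
  obtain ⟨v, hv⟩ := exists_dir
  obtain ⟨z, -, hz⟩ := adjust form v hv hε ![y2, y2, y2, y3, y4]
    (fun i => by fin_cases i <;> assumption) {2, 3, 4}
  refine ⟨z, ?_, ?_, ?_, ?_, ?_⟩
  · rw [hz, if_neg (by decide), he 0 1 one_ne_zero fun x => by simp [form], h0]
  · rw [hz, if_neg (by decide), he 1 1 one_ne_zero fun x => by simp [form], h0]
  · rw [hz, if_pos (by decide), he 2 2 (by norm_num) fun x => by simp [form]; ring]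
    exact c2
  · rw [hz, if_pos (by decide), he 3 3 (by norm_num) fun x => by simp [form]; ring]
    simp only [add_assoc] at c3 ⊢
    exact c3
  · rw [hz, if_pos (by decide), he 4 3 (by norm_num) fun x => by simp [form]; ring]
    exact c4

end Pool.Agent.H60Z.HTn
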