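import Pool.Agent.H60Z.HTn.C

/-!
The system of three ultrafilters on `ℕ` and its finite covering property.
-/

set_option autoImplicit false

open Filter Finset

namespace Pool.Agent.H60Z.HTn

attribute [local instance] Ultrafilter.add Ultrafilter.addSemigroup

/-- the shift of `B` by `a` is large -/
def Sh (p : Ultrafilter ℕ) (B : ℕ → Prop) (a : ℕ) : Prop := ∀ᶠ y in p, B (a + y)

/-- all three shifts are large -/
def Lg (t1 t2 t3 : Ultrafilter ℕ) (B1 B2 B3 : ℕ → Prop) (a : ℕ) : Prop :=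
  Sh t1 B1 a ∧ Sh t2 B2 (2 * a) ∧ Sh t3 B3 (3 * a)

/-- the properties of the three ultrafilters -/
structure Sys (t1 t2 t3 : Ultrafilter ℕ) : Prop where
  k1 : t1 ∈ KK ℕ
  k2 : t2 ∈ KK ℕ
  inf : ∀ n : ℕ, ∀ᶠ x : ℕ in t1, n ≤ x
  adj : ∀ b1 ∈ KK ℕ, ∀ b2 ∈ KK ℕ, ∀ B1 B2 B3 : ℕ → Prop, Lg t1 t2 t3 B1 B2 B3 0 → ∃ a g,
    Lg t1 t2 t3 B1 B2 B3 a ∧ Lg t1 t2 t3 B1 B2 B3 g ∧
    (∀ᶠ t : ℕ in b1, Sh t1 B2 (a + g + t) ∧ Sh t2 B3 (a + 2 * g + t)) ∧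
      ∀ᶠ t : ℕ in b2, Sh t1 B3 (2 * a + g + t)

theorem exists_sys : ∃ t1 t2 t3, Sys t1 t2 t3 := by
  obtain ⟨u, hu, huu⟩ := exists_idempotent_in_compact_add_subsemigroup
    (Ultrafilter.continuous_add_left (M := ℕ)) (⋂ n, {p : Ultrafilter ℕ | {x | n ≤ x} ∈ p})
    ⟨hyperfilter ℕ, Set.mem_iInter.2 fun n => Nat.hyperfilter_le_atTop (eventually_ge_atTop n)⟩
    (isClosed_iInter fun _ => ultrafilter_isClosed_basic _).isCompact
    fun p hp q _ => Set.mem_iInter.2 fun n => mem_add.2 (by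
      filter_upwards [Set.mem_iInter.1 hp n] with x hx
      exact Eventually.of_forall fun y => le_trans hx (Nat.le_add_right _ _))
  let c : ℕ →+ ℚ := Nat.castAddMonoidHom ℚ
  have hc : ∀ n, c n = n := fun _ => rfl
  obtain ⟨ζ, hζ, h1, -⟩ := exists_min Ultrafilter.continuous_add_left isClosed_TT.isCompact
    add_mem_TT (map_mem_TT c (mem_TT_nat (idem_mem_KK huu))) (by rw [← map_add', huu])
  have h2 : ∀ n, ∀ᶠ x in ζ, n ≤ ⌊x⌋₊ ∧ (⌊x⌋₊ : ℚ) = x := by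
    intro n
    rw [← h1, Ultrafilter.eventually_add]
    filter_upwards [hζ.mem.2 (AddMonoidHom.id ℚ)] with x ⟨k, hk⟩
    rw [Ultrafilter.coe_map, eventually_map]
    filter_upwards [Set.mem_iInter.1 hu (n + k.natAbs)] with y hy
    have : x + c y = ((k + y).toNat : ℕ) := by
      rw [show x = k from hk, hc, ← Int.cast_natCast (R := ℚ) (k + y).toNat,
        Int.toNat_of_nonneg (by omega)]
      push_cast
      rfl
    rw [this, Nat.floor_natCast]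
    exact ⟨by omega, rfl⟩
  have inj : ∀ p q : Ultrafilter ℕ, p.map c = q.map c → p = q := by
    intro p q h
    have : ∀ p : Ultrafilter ℕ, (p.map c).map Nat.floor = p := fun p => by
      rw [Ultrafilter.map_map, show (Nat.floor ∘ c : ℕ → ℕ) = id from
        funext fun n => Nat.floor_natCast n, Ultrafilter.map_id]
    rw [← this p, h, this]
  have mc : ∀ {α : Type} (p : Ultrafilter α) (f g : α → ℚ), (∀ᶠ x in p, f x = g x) →
      p.map f = p.map g := fun p f g h => Ultrafilter.coe_injective (map_congr h)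
  let z0 := ζ.map (Nat.floor : ℚ → ℕ)
  have h3 : z0.map c = ζ := by
    rw [Ultrafilter.map_map, mc ζ (c ∘ Nat.floor) id ((h2 0).mono fun x hx => hx.2), Ultrafilter.map_id]
  let s : ℕ → ℕ →+ ℕ := fun r => AddMonoidHom.mulLeft r
  have hs : ∀ r, (z0.map (s r)).map c = ζ.map (sc r) := by
    intro r
    have : (c ∘ s r : ℕ → ℚ) = sc r ∘ c := funext fun x => by simp [s, sc, hc]
    rw [Ultrafilter.map_map, this, ← Ultrafilter.map_map, h3]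
  have h4 : z0 + z0 = z0 := inj _ _ (by rw [map_add', h3, hζ.idem])
  have h5 : ∀ r, z0.map (s r) + (z0.map (s r) + z0) = z0.map (s r) + z0 := fun r => by
    rw [← add_assoc, ← map_add', h4]
  have h6 : z0 ∈ KK ℕ := idem_mem_KK h4
  refine ⟨z0, z0.map (s 2) + z0, z0.map (s 3) + z0, h6, add_mem_KK (map_mem_KK _ h6) h6,
    fun n => (h2 n).mono fun x hx => hx.1, fun b1 hb1 b2 hb2 B1 B2 B3 hB => ?_⟩
  obtain ⟨z, e0, e1, e2, e3, e4⟩ := adjust_rat hζ (map_mem_TT c (mem_TT_nat hb1))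
    (map_mem_TT c (mem_TT_nat hb2))
  have f0 : ∀ᶠ x : ℚ × ℚ in z, (⌊x.1⌋₊ : ℚ) = x.1 := by
    have := h2 0
    rw [← e0, Ultrafilter.coe_map, eventually_map] at this
    exact this.mono fun x hx => by simpa [form] using hx.2
  have f1 : ∀ᶠ x : ℚ × ℚ in z, (⌊x.2⌋₊ : ℚ) = x.2 := by
    have := h2 0
    rw [← e1, Ultrafilter.coe_map, eventually_map] at this
    exact this.mono fun x hx => by simpa [form] using hx.2
  have hz : ∀ (i : Fin 5) (a b : ℕ), (∀ x, form i x = a * x.1 + b * x.2) →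
      (z.map fun x => a * ⌊x.1⌋₊ + b * ⌊x.2⌋₊).map c = z.map (form i) := by
    intro i a b h
    rw [Ultrafilter.map_map]
    refine mc _ _ _ ?_
    filter_upwards [f0, f1] with x a1 a2
    simp [hc, h, a1, a2]
  have g0 := inj _ _ (((hz 0 1 0 fun x => by simp [form]).trans e0).trans h3.symm)
  have g1 := inj _ _ (((hz 1 0 1 fun x => by simp [form]).trans e1).trans h3.symm)
  have g2 : (z.map fun x => 1 * ⌊x.1⌋₊ + 1 * ⌊x.2⌋₊) + b1 + z0 = z0.map (s 2) + z0 := inj _ _ (by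
    rw [map_add', map_add', map_add', hz 2 1 1 fun x => by simp [form], h3, hs]; exact e2)
  have g3 : (z.map fun x => 1 * ⌊x.1⌋₊ + 2 * ⌊x.2⌋₊) + b1 + (z0.map (s 2) + z0) =
      z0.map (s 3) + z0 := inj _ _ (by
    rw [map_add', map_add', map_add', map_add', hz 3 1 2 fun x => by simp [form], h3, hs, hs]
    exact e3)
  have g4 : (z.map fun x => 2 * ⌊x.1⌋₊ + 1 * ⌊x.2⌋₊) + b2 + z0 = z0.map (s 3) + z0 := inj _ _ (by
    rw [map_add', map_add', map_add', hz 4 2 1 fun x => by simp [form], h3, hs]; exact e4)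
  obtain ⟨k1, k2, k3⟩ := hB
  simp only [Sh, mul_zero, zero_add] at k1 k2 k3
  have k4 : ∀ᶠ a in z0, Lg z0 (z0.map (s 2) + z0) (z0.map (s 3) + z0) B1 B2 B3 a := by
    have a1 := k1
    have a2 := k2
    have a3 := k3
    rw [← h4, Ultrafilter.eventually_add] at a1
    rw [← h5, Ultrafilter.eventually_add, Ultrafilter.coe_map, eventually_map] at a2 a3
    filter_upwards [a1, a2, a3] with a a1 a2 a3
    exact ⟨a1, a2, a3⟩
  have k5 := k4
  have k6 := k4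
  have k7 := k3
  conv at k5 => rw [show (z0 : Filter ℕ) = _ from congrArg _ g0.symm]
  conv at k6 => rw [show (z0 : Filter ℕ) = _ from congrArg _ g1.symm]
  rw [← g2] at k2
  rw [← g3] at k3
  rw [← g4] at k7
  rw [Ultrafilter.eventually_add, Ultrafilter.eventually_add] at k2 k3 k7
  have ev : ∀ {f : ℚ × ℚ → ℕ} {P : ℕ → Prop}, (∀ᶠ n : ℕ in z.map f, P n) →
      ∀ᶠ x : ℚ × ℚ in z, P (f x) := fun h => h
  obtain ⟨x, a1, a2, a3, a4, a5⟩ :=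
    ((ev k5).and ((ev k6).and ((ev k2).and ((ev k3).and (ev k7))))).exists
  simp only [one_mul, zero_mul, add_zero, zero_add] at a1 a2 a3 a4 a5
  exact ⟨_, _, a1, a2, a3.and a4, a5⟩

lemma exists_not_ip {W : Set ℕ} (h : ∀ b ∈ KK ℕ, W ∉ b) : ∃ m, ¬ IP m W := by
  by_contra hc
  simp only [not_exists, not_not] at hc
  obtain ⟨p, h1, h2⟩ := exists_KK (𝓟 W) fun A hA m => (hc m).mono le_rfl hA
  exact h p h1 (le_principal_iff.1 h2)

lemma colour {ι : Type} [Finite ι] (U : ι → Set ℕ) : ∃ (L : List ℕ) (κ : ℕ → ℕ) (m : ℕ),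
    (∀ t, κ t ∈ 0 :: L) ∧ ¬ IP m {t | κ t = 0} ∧
      ∀ a ∈ L, ∃ b ∈ KK ℕ, ∀ i, U i ∈ b → ∀ t, κ t = a → t ∈ U i := by
  classical
  let ty : ℕ → Set ι := fun t => {i | t ∈ U i}
  let Big : Set ι → Prop := fun S => ∃ b ∈ KK ℕ, {t | ty t = S} ∈ b
  obtain ⟨e, he⟩ := exists_injective_nat (Set ι)
  have hf : (Set.range fun S : {S // Big S} => e S + 1).Finite := Set.finite_range _
  obtain ⟨m, hm⟩ := exists_not_ip (W := {t | ¬ Big (ty t)}) fun b hb h => by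
    obtain ⟨S, hS⟩ := Ultrafilter.eq_pure_of_finite (b.map ty)
    have h1 : {t | ty t = S} ∈ b := by
      have : ({S} : Set (Set ι)) ∈ b.map ty := by rw [hS]; simp
      exact this
    obtain ⟨t, e1, e2⟩ := Ultrafilter.nonempty_of_mem (inter_mem h h1)
    exact e1 ⟨b, hb, by rw [show ty t = S from e2]; exact h1⟩
  refine ⟨hf.toFinset.toList, fun t => if Big (ty t) then e (ty t) + 1 else 0, m, fun t => ?_,
    fun h => hm (h.mono le_rfl fun t ht h' => ?_), fun a ha => ?_⟩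
  · dsimp only
    by_cases h : Big (ty t)
    · rw [if_pos h]
      exact List.mem_cons_of_mem _ (mem_toList.2 (hf.mem_toFinset.2 ⟨⟨_, h⟩, rfl⟩))
    · rw [if_neg h]
      exact List.mem_cons_self
  · simp [h'] at ht
  · obtain ⟨⟨S, b, hb, hS⟩, rfl⟩ := hf.mem_toFinset.1 (mem_toList.1 ha)
    refine ⟨b, hb, fun i hi t ht => ?_⟩
    obtain ⟨t', e1, e2⟩ := Ultrafilter.nonempty_of_mem (inter_mem hi hS)
    have h1 : ty t = S := by
      by_cases h : Big (ty t)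
      · simp only [if_pos h] at ht
        exact he (Nat.succ_injective ht)
      · simp [h] at ht
    have h2 : i ∈ ty t := by
      rw [h1, ← show ty t' = S from e2]
      exact e1
    exact h2

theorem cover {η : Type} (U V : η → Set ℕ)
    (h : ∀ b1 ∈ KK ℕ, ∀ b2 ∈ KK ℕ, ∃ i, U i ∈ b1 ∧ V i ∈ b2) :
    ∃ (L1 L2 : List ℕ) (κ1 κ2 : ℕ → ℕ) (m : ℕ), (∀ t, κ1 t ∈ 0 :: L1) ∧ (∀ t, κ2 t ∈ 0 :: L2) ∧
      ¬ IP m {t | κ1 t = 0} ∧ ¬ IP m {t | κ2 t = 0} ∧ ∀ a ∈ L1, ∀ a' ∈ L2, ∃ i,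
        (∀ t, κ1 t = a → t ∈ U i) ∧ ∀ t, κ2 t = a' → t ∈ V i := by
  obtain ⟨E, hE⟩ := (isClosed_KK.isCompact.prod isClosed_KK.isCompact).elim_finite_subcover
    (fun i => {b : Ultrafilter ℕ | U i ∈ b} ×ˢ {b : Ultrafilter ℕ | V i ∈ b})
    (fun i => (ultrafilter_isOpen_basic _).prod (ultrafilter_isOpen_basic _))
    fun b hb => Set.mem_iUnion.2 (h b.1 hb.1 b.2 hb.2)
  obtain ⟨L1, κ1, m1, a1, a2, a3⟩ := colour fun i : E => U i
  obtain ⟨L2, κ2, m2, b1, b2, b3⟩ := colour fun i : E => V i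
  refine ⟨L1, L2, κ1, κ2, max m1 m2, a1, b1, fun h => a2 (h.mono (le_max_left _ _) subset_rfl),
    fun h => b2 (h.mono (le_max_right _ _) subset_rfl), fun a ha a' ha' => ?_⟩
  obtain ⟨p, c1, c2⟩ := a3 a ha
  obtain ⟨q, c3, c4⟩ := b3 a' ha'
  obtain ⟨i, hi, c5⟩ := Set.mem_iUnion₂.1 (hE (show (p, q) ∈ _ from ⟨c1, c3⟩))
  exact ⟨i, c2 ⟨i, hi⟩ c5.1, c4 ⟨i, hi⟩ c5.2⟩

/-- The covering property used by the forcing. -/
theorem Sys.cover {t1 t2 t3 : Ultrafilter ℕ} (h : Sys t1 t2 t3) {B1 B2 B3 : ℕ → Prop} {Γ : ℕ}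
    (hB : Lg t1 t2 t3 B1 B2 B3 Γ) : ∃ (L1 L2 : List ℕ) (κ1 κ2 : ℕ → ℕ) (m : ℕ) (A : ℕ → ℕ → ℕ),
      (∀ t, κ1 t ∈ 0 :: L1) ∧ (∀ t, κ2 t ∈ 0 :: L2) ∧
      ¬ IP m {t | κ1 t = 0} ∧ ¬ IP m {t | κ2 t = 0} ∧ ∀ a ∈ L1, ∀ a' ∈ L2,
        Lg t1 t2 t3 B1 B2 B3 (A a a') ∧ ∃ G, Lg t1 t2 t3 B1 B2 B3 G ∧
          (∀ t, κ1 t = a → Sh t1 B2 (A a a' + t + G) ∧ Sh t2 B3 (A a a' + t + 2 * G)) ∧
          ∀ t, κ2 t = a' → Sh t1 B3 (2 * A a a' + t + G) := by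
  obtain ⟨L1, L2, κ1, κ2, m, a1, a2, a3, a4, a5⟩ := HTn.cover
    (η := {x : ℕ × ℕ // Lg t1 t2 t3 B1 B2 B3 x.1 ∧ Lg t1 t2 t3 B1 B2 B3 x.2})
    (fun x => {t | Sh t1 B2 (x.1.1 + t + x.1.2) ∧ Sh t2 B3 (x.1.1 + t + 2 * x.1.2)})
    (fun x => {t | Sh t1 B3 (2 * x.1.1 + t + x.1.2)}) fun b1 h1 b2 h2 => by
      obtain ⟨a, g, e1, e2, e3, e4⟩ := h.adj b1 h1 b2 h2 (fun s => B1 (Γ + s))
        (fun s => B2 (2 * Γ + s)) (fun s => B3 (3 * Γ + s)) (by simpa [Lg, Sh] using hB)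
      refine ⟨⟨(Γ + a, Γ + g), by simpa only [Lg, Sh, mul_add, add_assoc] using e1,
        by simpa only [Lg, Sh, mul_add, add_assoc] using e2⟩, e3.mono fun t ht => ⟨?_, ?_⟩,
        e4.mono fun t ht => ?_⟩
      · exact ht.1.mono fun y hy => by convert hy using 1; dsimp only; ring
      · exact ht.2.mono fun y hy => by convert hy using 1; dsimp only; ring
      · exact Eventually.mono ht fun y hy => by convert hy using 1; dsimp only; ring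
  have : ∀ a a', ∃ A, a ∈ L1 → a' ∈ L2 → Lg t1 t2 t3 B1 B2 B3 A ∧ ∃ G, Lg t1 t2 t3 B1 B2 B3 G ∧
      (∀ t, κ1 t = a → Sh t1 B2 (A + t + G) ∧ Sh t2 B3 (A + t + 2 * G)) ∧
      ∀ t, κ2 t = a' → Sh t1 B3 (2 * A + t + G) := by
    intro a a'
    by_cases h1 : a ∈ L1 ∧ a' ∈ L2
    · obtain ⟨i, e1, e2⟩ := a5 a h1.1 a' h1.2
      exact ⟨i.1.1, fun _ _ => ⟨i.2.1, i.1.2, i.2.2, e1, e2⟩⟩
    · exact ⟨0, fun e1 e2 => absurd ⟨e1, e2⟩ h1⟩
  choose A hA using this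
  exact ⟨L1, L2, κ1, κ2, m, A, a1, a2, a3, a4, fun a ha a' ha' => hA a a' ha ha'⟩

end Pool.Agent.H60Z.HTn
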