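import Pool.Agent.H60Z.HTn.D
import Pool.Agent.H362Z.EM.C

/-!
The forcing: sets with prescribed sums of one, two and three elements preserve hyperimmunity.
-/

set_option autoImplicit false

open Filter

namespace Pool.Agent.H60Z.HTn

open Pool.Agent.H362Z.PRT Pool.Agent.H362Z.EM

variable {M : SA} {α β : Type} [Primcodable α] [Primcodable β]

/-- an interval on which `B` holds and `A` is constantly `i` -/
def Hyp (A : ℕ → Bool) (i : Bool) (B : ℕ → ℕ → Prop) : Prop :=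
  ∃ m b, B m b ∧ ∀ x, m ≤ x → x < b → A x = i

lemma mono_hyp (A : ℕ → Bool) : Mono (Hyp A) := by
  rintro i B B' h ⟨m, b, h1, h2⟩
  obtain ⟨b', h3, h4⟩ := h m b h1
  exact ⟨m, b', h4, fun x e1 e2 => h2 x e1 (e2.trans_le h3)⟩

/-- new elements -/
def New (σ τ : List Bool) (x : ℕ) : Prop := σ.length ≤ x ∧ τ.getD x false = true

/-- valid extensions -/
def Val (σ τ : List Bool) (P1 P2 P3 : ℕ → Prop) : Prop :=
  σ <+: τ ∧ (∀ x, New σ τ x → P1 x) ∧ (∀ y x, x < y → New σ τ x → New σ τ y → P2 (x + y)) ∧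
    ∀ z y x, y < z → x < y → New σ τ x → New σ τ y → New σ τ z → P3 (x + y + z)

lemma Val.refl (σ : List Bool) (P1 P2 P3 : ℕ → Prop) : Val σ σ P1 P2 P3 := by
  have : ∀ x, ¬ New σ σ x := fun x h => absurd (lt_of_getD h.2) (not_lt.2 h.1)
  exact ⟨List.prefix_refl _, fun x h => absurd h (this x), fun _ x _ h => absurd h (this x),
    fun _ _ x _ _ h => absurd h (this x)⟩

lemma Val.mono {σ τ : List Bool} {P1 P2 P3 Q1 Q2 Q3 : ℕ → Prop} (h : Val σ τ P1 P2 P3)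
    (e1 : ∀ x, P1 x → Q1 x) (e2 : ∀ x, P2 x → Q2 x) (e3 : ∀ x, P3 x → Q3 x) : Val σ τ Q1 Q2 Q3 :=
  ⟨h.1, fun x a => e1 _ (h.2.1 x a), fun y x a b c => e2 _ (h.2.2.1 y x a b c),
    fun z y x a b c d e => e3 _ (h.2.2.2 z y x a b c d e)⟩

lemma CE.finAll {ι : Type} (s : Finset ι) {p : ι → α → Prop} (h : ∀ i ∈ s, CE M (p i)) :
    CE M fun a => ∀ i ∈ s, p i a := by
  classical
  induction s using Finset.induction_on with
  | empty => exact (CE.const True).of_iff fun a => by simp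
  | insert i s _ ih =>
    exact ((h i (Finset.mem_insert_self _ _)).and
      (ih fun j hj => h j (Finset.mem_insert_of_mem hj))).of_iff fun a => by simp

lemma Sig.finAll {ι : Type} (s : Finset ι) {O : ι → α → (ℕ → β) → Prop}
    (h : ∀ i ∈ s, Sig M (O i)) : Sig M fun a c => ∀ i ∈ s, O i a c := by
  classical
  induction s using Finset.induction_on with
  | empty => exact (Sig.of_ce (CE.const True)).of_iff fun a c => by simp
  | insert i s _ ih =>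
    exact ((h i (Finset.mem_insert_self _ _)).and
      (ih fun j hj => h j (Finset.mem_insert_of_mem hj))).of_iff fun a c => by simp

lemma inM_sum (s : Finset ℕ) : InM M fun l : List ℕ => ∑ i ∈ s, l.getD i 0 := by
  induction s using Finset.induction_on with
  | empty => simpa using InM.const (M := M) (α := List ℕ) (0 : ℕ)
  | insert i s hi ih =>
    simp only [Finset.sum_insert hi]
    exact InM.add (by fun_prop) ih

lemma sig_ip (m : ℕ) {p : β → Prop} (hp : CE M p) :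
    Sig M fun (_ : α) (c : ℕ → β) => IP m {t | p (c t)} := by
  have h1 : Sig M fun (x : α × List ℕ) (c : ℕ → β) =>
      ∀ s ∈ (Finset.range m).powerset.filter Finset.Nonempty, p (c (∑ i ∈ s, x.2.getD i 0)) :=
    Sig.finAll _ fun s _ => Sig.eval (p := fun (_ : α × List ℕ) (b : β) => p b)
      (hp.comp (by fun_prop)) ((inM_sum s).comp (g := fun x : α × List ℕ => x.2) (by fun_prop))
  refine (Sig.ex (O := fun (_ : α) (l : List ℕ) (c : ℕ → β) =>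
      ∀ s ∈ (Finset.range m).powerset.filter Finset.Nonempty, p (c (∑ i ∈ s, l.getD i 0)))
    h1).of_iff fun _ c => ⟨fun ⟨l, hl⟩ => ⟨fun i => l.getD i 0, fun s e1 e2 =>
      hl s (Finset.mem_filter.2 ⟨Finset.mem_powerset.2 e1, e2⟩)⟩, fun ⟨a, ha⟩ =>
      ⟨pre a m, fun s hs => ?_⟩⟩
  obtain ⟨e1, e2⟩ := Finset.mem_filter.1 hs
  rw [Finset.mem_powerset] at e1
  rw [Finset.sum_congr rfl fun i hi => pre_getD a (Finset.mem_range.1 (e1 hi)) 0]
  exact ha s e1 e2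

lemma sig_val (σ : List Bool) {τ : α → List Bool} (hτ : InM M τ)
    {P1 P2 P3 : α → (ℕ → β) → ℕ → Prop} (h1 : Sig M fun (x : α × ℕ) c => P1 x.1 c x.2)
    (h2 : Sig M fun (x : α × ℕ) c => P2 x.1 c x.2) (h3 : Sig M fun (x : α × ℕ) c => P3 x.1 c x.2) :
    Sig M fun a c => Val σ (τ a) (P1 a c) (P2 a c) (P3 a c) := by
  have hN : CE M fun x : α × ℕ => ¬ New σ (τ x.1) x.2 :=
    ((Dec.le (by fun_prop) (by fun_prop)).and (Dec.eq (by fun_prop) (by fun_prop))).2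
  have a0 : Sig M fun a (_ : ℕ → β) => (τ a).take σ.length = σ :=
    Sig.of_ce (CE.eq (by fun_prop) (by fun_prop))
  have a1 : Sig M fun a c => ∀ x < (τ a).length, ¬ New σ (τ a) x ∨ P1 a c x :=
    Sig.ball (O := fun a x c => ¬ New σ (τ a) x ∨ P1 a c x) (by fun_prop) ((Sig.of_ce hN).or h1)
  have a2 : Sig M fun a c => ∀ y < (τ a).length, ∀ x < y,
      ¬ New σ (τ a) x ∨ ¬ New σ (τ a) y ∨ P2 a c (x + y) :=
    Sig.ball (O := fun a y c => ∀ x < y, ¬ New σ (τ a) x ∨ ¬ New σ (τ a) y ∨ P2 a c (x + y))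
      (by fun_prop) (Sig.ball (O := fun (a : α × ℕ) x c =>
        ¬ New σ (τ a.1) x ∨ ¬ New σ (τ a.1) a.2 ∨ P2 a.1 c (x + a.2)) (by fun_prop)
        ((Sig.of_ce (hN.comp (f := fun x : (α × ℕ) × ℕ => (x.1.1, x.2)) (by fun_prop))).or
          ((Sig.of_ce (hN.comp (f := fun x : (α × ℕ) × ℕ => x.1) (by fun_prop))).or
            (h2.comp (k := fun x : (α × ℕ) × ℕ => (x.1.1, x.2 + x.1.2)) (by fun_prop)))))
  have a3 : Sig M fun a c => ∀ z < (τ a).length, ∀ y < z, ∀ x < y,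
      ¬ New σ (τ a) x ∨ ¬ New σ (τ a) y ∨ ¬ New σ (τ a) z ∨ P3 a c (x + y + z) :=
    Sig.ball (O := fun a z c => ∀ y < z, ∀ x < y,
      ¬ New σ (τ a) x ∨ ¬ New σ (τ a) y ∨ ¬ New σ (τ a) z ∨ P3 a c (x + y + z))
      (by fun_prop) (Sig.ball (O := fun (a : α × ℕ) y c => ∀ x < y,
        ¬ New σ (τ a.1) x ∨ ¬ New σ (τ a.1) y ∨ ¬ New σ (τ a.1) a.2 ∨ P3 a.1 c (x + y + a.2))
        (by fun_prop) (Sig.ball (O := fun (a : (α × ℕ) × ℕ) x c =>
          ¬ New σ (τ a.1.1) x ∨ ¬ New σ (τ a.1.1) a.2 ∨ ¬ New σ (τ a.1.1) a.1.2 ∨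
            P3 a.1.1 c (x + a.2 + a.1.2)) (by fun_prop)
        ((Sig.of_ce (hN.comp (f := fun x : ((α × ℕ) × ℕ) × ℕ => (x.1.1.1, x.2)) (by fun_prop))).or
          ((Sig.of_ce (hN.comp (f := fun x : ((α × ℕ) × ℕ) × ℕ => (x.1.1.1, x.1.2))
            (by fun_prop))).or
            ((Sig.of_ce (hN.comp (f := fun x : ((α × ℕ) × ℕ) × ℕ => x.1.1) (by fun_prop))).or
              (h3.comp (k := fun x : ((α × ℕ) × ℕ) × ℕ => (x.1.1.1, x.2 + x.1.2 + x.1.1.2))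
                (by fun_prop)))))))
  refine (a0.and (a1.and (a2.and a3))).of_iff fun a c => and_congr
    (List.prefix_iff_eq_take.trans eq_comm).symm (and_congr ?_ (and_congr ?_ ?_))
  · exact ⟨fun h x hx => (h x (lt_of_getD hx.2)).resolve_left (not_not.2 hx),
      fun h x _ => or_iff_not_imp_left.2 fun hx => h x (not_not.1 hx)⟩
  · exact ⟨fun h y x e hx hy => by have := h y (lt_of_getD hy.2) x e; tauto,
      fun h y _ x e => by have := h y x e; tauto⟩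
  · exact ⟨fun h z y x e e' hx hy hz => by have := h z (lt_of_getD hz.2) y e x e'; tauto,
      fun h z _ y e x e' => by have := h z y x e e'; tauto⟩

/-- the constraints attached to a guess `c` and an entry `e` -/
def Con1 (B1 : ℕ → Prop) (e : ℕ × ℕ × ℕ) (c : ℕ → ℕ × ℕ) (y : ℕ) : Prop :=
  B1 y ∧ ∃ t, y = e.2.2 + t ∧ (c t).1 = e.1

/-- the constraints on pairs -/
def Con2 (B2 : ℕ → Prop) (e : ℕ × ℕ × ℕ) (c : ℕ → ℕ × ℕ) (y : ℕ) : Prop :=
  B2 y ∧ ∃ t, y = 2 * e.2.2 + t ∧ (c t).2 = e.2.1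

/-- a valid extension meeting `S` -/
def Good (σ : List Bool) (B1 B2 B3 : ℕ → Prop) (E : List (ℕ × ℕ × ℕ))
    (S : ℕ → ℕ → List Bool → Prop) (m b : ℕ) (c : ℕ → ℕ × ℕ) : Prop :=
  ∃ d : (ℕ × ℕ × ℕ) × List Bool, d.1 ∈ E ∧ S m b d.2 ∧
    Val σ d.2 (Con1 B1 d.1 c) (Con2 B2 d.1 c) B3

lemma sig_good (σ : List Bool) {B1 B2 B3 : ℕ → Prop} (h1 : CE M B1) (h2 : CE M B2) (h3 : CE M B3)
    (E : List (ℕ × ℕ × ℕ)) {S : ℕ → ℕ → List Bool → Prop} (hS : Req M S) :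
    Sig M fun (x : ℕ × ℕ) c => Good σ B1 B2 B3 E S x.1 x.2 c := by
  refine Sig.ex (O := fun (x : ℕ × ℕ) (d : (ℕ × ℕ × ℕ) × List Bool) c => d.1 ∈ E ∧ S x.1 x.2 d.2 ∧
    Val σ d.2 (Con1 B1 d.1 c) (Con2 B2 d.1 c) B3)
    ((Sig.of_ce (CE.mem (by fun_prop) (by fun_prop))).and ((Sig.of_ce (hS.1.comp
      (f := fun x : (ℕ × ℕ) × (ℕ × ℕ × ℕ) × List Bool => (x.1.1, x.1.2, x.2.2)) (by fun_prop))).and
      (sig_val σ (τ := fun x : (ℕ × ℕ) × (ℕ × ℕ × ℕ) × List Bool => x.2.2)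
        (P1 := fun x c => Con1 B1 x.2.1 c) (P2 := fun x c => Con2 B2 x.2.1 c)
        (P3 := fun _ _ => B3) (by fun_prop) ?_ ?_ (Sig.of_ce (h3.comp (by fun_prop))))))
  · exact (Sig.of_ce (h1.comp (by fun_prop))).and
      (Sig.ex (O := fun (x : ((ℕ × ℕ) × (ℕ × ℕ × ℕ) × List Bool) × ℕ) (t : ℕ) (c : ℕ → ℕ × ℕ) =>
        x.2 = x.1.2.1.2.2 + t ∧ (c t).1 = x.1.2.1.1)
        ((Sig.of_ce (CE.eq (by fun_prop) (by fun_prop))).and (Sig.eval
          (p := fun (x : (((ℕ × ℕ) × (ℕ × ℕ × ℕ) × List Bool) × ℕ) × ℕ) (b : ℕ × ℕ) =>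
            b.1 = x.1.1.2.1.1) (CE.eq (by fun_prop) (by fun_prop)) (t := fun x => x.2)
          (by fun_prop))))
  · exact (Sig.of_ce (h2.comp (by fun_prop))).and
      (Sig.ex (O := fun (x : ((ℕ × ℕ) × (ℕ × ℕ × ℕ) × List Bool) × ℕ) (t : ℕ) (c : ℕ → ℕ × ℕ) =>
        x.2 = 2 * x.1.2.1.2.2 + t ∧ (c t).2 = x.1.2.1.2.1)
        ((Sig.of_ce (CE.eq (by fun_prop) (by fun_prop))).and (Sig.eval
          (p := fun (x : (((ℕ × ℕ) × (ℕ × ℕ × ℕ) × List Bool) × ℕ) × ℕ) (b : ℕ × ℕ) =>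
            b.2 = x.1.1.2.1.2.1) (CE.eq (by fun_prop) (by fun_prop)) (t := fun x => x.2)
          (by fun_prop))))

end Pool.Agent.H60Z.HTn
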