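import Pool.Agent.H60Z.HTn.E

/-!
The forcing step and the generic set.
-/

set_option autoImplicit false

open Filter

namespace Pool.Agent.H60Z.HTn

open Pool.Agent.H362Z.PRT Pool.Agent.H362Z.EM

/-- forcing conditions -/
structure Cond (t1 t2 t3 : Ultrafilter ℕ) (A : ℕ → Bool) (M : SA) where
  σ : List Bool
  Γ : ℕ
  B1 : ℕ → Prop
  B2 : ℕ → Prop
  B3 : ℕ → Prop
  N : SA
  le : Le M N
  inv : Inv (Hyp A) N
  c1 : CE N B1
  c2 : CE N B2
  c3 : CE N B3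
  lg : Lg t1 t2 t3 B1 B2 B3 Γ

variable {t1 t2 t3 : Ultrafilter ℕ} {A : ℕ → Bool} {M : SA}

/-- valid extensions of a condition -/
def Cond.V (c : Cond t1 t2 t3 A M) (τ : List Bool) : Prop := Val c.σ τ c.B1 c.B2 c.B3

lemma Cond.V_self (c : Cond t1 t2 t3 A M) : c.V c.σ := Val.refl _ _ _ _

lemma new_cases {σ η τ : List Bool} (h : η <+: τ) {x : ℕ} (hx : New σ τ x) :
    (x < η.length ∧ New σ η x) ∨ (η.length ≤ x ∧ New η τ x) := by
  by_cases e : x < η.length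
  · exact Or.inl ⟨e, hx.1, (getD_of_prefix h e).symm.trans hx.2⟩
  · exact Or.inr ⟨not_lt.1 e, not_lt.1 e, hx.2⟩

lemma Cond.extend (c : Cond t1 t2 t3 A M) {η : List Bool} (hη : c.V η) {G : ℕ}
    (hG : Lg t1 t2 t3 c.B1 c.B2 c.B3 G)
    (h1 : ∀ y, New c.σ η y → Sh t1 c.B2 (y + G) ∧ Sh t2 c.B3 (y + 2 * G))
    (h2 : ∀ y x, x < y → New c.σ η x → New c.σ η y → Sh t1 c.B3 (x + y + G)) :
    ∃ c' : Cond t1 t2 t3 A M, c'.σ = η ∧ ∀ τ, c'.V τ → c.V τ := by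
  classical
  let s := (Finset.range η.length).filter (New c.σ η)
  have hs : ∀ y, y ∈ s ↔ New c.σ η y := fun y => by
    simp only [s, Finset.mem_filter, Finset.mem_range]
    exact ⟨fun h => h.2, fun h => ⟨lt_of_getD h.2, h⟩⟩
  let s2 := (s ×ˢ s).filter fun x => x.1 < x.2
  refine ⟨⟨η, G, fun z => c.B1 z ∧ (∀ y ∈ s, c.B2 (y + z)) ∧ ∀ x ∈ s2, c.B3 (x.1 + x.2 + z),
    fun z => c.B2 z ∧ ∀ y ∈ s, c.B3 (y + z), c.B3, c.N, c.le, c.inv,
    c.c1.and ((CE.finAll s fun y _ => c.c2.comp (by fun_prop)).and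
      (CE.finAll s2 fun y _ => c.c3.comp (by fun_prop))),
    c.c2.and (CE.finAll s fun y _ => c.c3.comp (by fun_prop)), c.c3,
    hG.1.and (Eventually.and ((eventually_all_finset _).2 fun y hy => ?_)
      ((eventually_all_finset _).2 fun x hx => ?_)),
    hG.2.1.and ((eventually_all_finset _).2 fun y hy => ?_), hG.2.2⟩, rfl, ?_⟩
  · simpa only [Sh, add_assoc] using (h1 y ((hs y).1 hy)).1
  · obtain ⟨e1, e2⟩ := Finset.mem_filter.1 hx
    obtain ⟨e3, e4⟩ := Finset.mem_product.1 e1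
    simpa only [Sh, add_assoc] using h2 _ _ e2 ((hs _).1 e3) ((hs _).1 e4)
  · simpa only [Sh, add_assoc] using (h1 y ((hs y).1 hy)).2
  · rintro τ ⟨e0, e1, e2, e3⟩
    dsimp only at e0 e1 e2 e3
    refine ⟨hη.1.trans e0, fun x hx => ?_, fun y x h hx hy => ?_, fun z y x h h' hx hy hz => ?_⟩
    · rcases new_cases e0 hx with a | a
      · exact hη.2.1 x a.2
      · exact (e1 x a.2).1
    · rcases new_cases e0 hx with a | a <;> rcases new_cases e0 hy with b | b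
      · exact hη.2.2.1 y x h a.2 b.2
      · exact (e1 y b.2).2.1 x ((hs x).2 a.2)
      · omega
      · exact (e2 y x h a.2 b.2).1
    · rcases new_cases e0 hx with a | a <;> rcases new_cases e0 hy with b | b <;>
        rcases new_cases e0 hz with d | d
      · exact hη.2.2.2 z y x h h' a.2 b.2 d.2
      · exact (e1 z d.2).2.2 (x, y) (Finset.mem_filter.2
          ⟨Finset.mem_product.2 ⟨(hs x).2 a.2, (hs y).2 b.2⟩, h'⟩)
      · omega
      · rw [add_assoc]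
        exact (e2 z y h b.2 d.2).2 x ((hs x).2 a.2)
      · omega
      · omega
      · omega
      · exact e3 z y x h h' a.2 b.2 d.2

lemma Cond.pad (c : Cond t1 t2 t3 A M) (t : ℕ) :
    ∃ c' : Cond t1 t2 t3 A M, t ≤ c'.σ.length ∧ ∀ τ, c'.V τ → c.V τ := by
  have h := sExt_pad (σ := c.σ) (le_max_right t _) fun _ => False
  have h' : ∀ x, ¬ New c.σ (Pool.Agent.H362Z.EM.pad c.σ (max t c.σ.length)) x :=
    fun x hx => h.2 x hx.1 hx.2
  obtain ⟨c', e1, e2⟩ := c.extend (η := Pool.Agent.H362Z.EM.pad c.σ (max t c.σ.length))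
    ⟨h.1, fun x a => absurd a (h' x), fun _ x _ a => absurd a (h' x),
      fun _ _ x _ _ a => absurd a (h' x)⟩ c.lg (fun x a => absurd a (h' x))
    fun _ x _ a => absurd a (h' x)
  exact ⟨c', by rw [e1]; simp [Pool.Agent.H362Z.EM.pad], e2⟩

lemma Cond.grow (hs : Sys t1 t2 t3) (c : Cond t1 t2 t3 A M) (n : ℕ) :
    ∃ τ, c.V τ ∧ ∃ y, n ≤ y ∧ τ.getD y false = true := by
  obtain ⟨w, h1, h2⟩ := (Eventually.and c.lg.1 (hs.inf (max n c.σ.length))).exists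
  let y := c.Γ + w
  let η := pre (fun x => if x < c.σ.length then c.σ.getD x false else decide (x = y)) (y + 1)
  have h6 : ∀ x, New c.σ η x → x = y := by
    intro x hx
    have := lt_of_getD hx.2
    rw [length_pre] at this
    have h := hx.2
    rw [pre_getD _ this, if_neg (not_lt.2 hx.1)] at h
    simpa using h
  refine ⟨η, ⟨prefix_pre c.σ false _ (by omega), fun x hx => h6 x hx ▸ h1, fun y x h hx hy => ?_,
    fun z y x _ h hx hy _ => ?_⟩, y, by omega, ?_⟩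
  · have := h6 x hx
    have := h6 y hy
    omega
  · have := h6 x hx
    have := h6 y hy
    omega
  · rw [pre_getD _ (Nat.lt_succ_self _), if_neg (by omega)]
    simp

lemma exists_colour {p : Ultrafilter ℕ} (hp : p ∈ KK ℕ) {L : List ℕ} {κ : ℕ → ℕ} {m : ℕ}
    (h1 : ∀ t, κ t ∈ 0 :: L) (h2 : ¬ IP m {t | κ t = 0}) : ∃ a ∈ L, ∀ᶠ t : ℕ in p, κ t = a := by
  obtain ⟨a, ha, h⟩ := (p.map κ).eq_pure_of_finite_mem (List.finite_toSet (0 :: L))
    (Ultrafilter.mem_map.2 (univ_mem' h1))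
  have h3 : {t | κ t = a} ∈ p := by
    have : ({a} : Set ℕ) ∈ p.map κ := by rw [h]; simp
    exact this
  rcases List.mem_cons.1 ha with rfl | ha
  · exact absurd (hp _ h3 m) h2
  · exact ⟨a, ha, h3⟩

lemma Cond.step (hs : Sys t1 t2 t3) (c : Cond t1 t2 t3 A M) {S : ℕ → ℕ → List Bool → Prop}
    (hS : Req M S) (i : Bool) : ∃ c' : Cond t1 t2 t3 A M, (∀ τ, c'.V τ → c.V τ) ∧
      ((Hyp A i fun m b => S m b c'.σ) ∨ ∃ m, ∀ τ b, c'.V τ → ¬ S m b τ) := by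
  obtain ⟨L1, L2, κ1, κ2, m0, F, a1, a2, a3, a4, a5⟩ := hs.cover c.lg
  let E : List (ℕ × ℕ × ℕ) := L1.flatMap fun a => L2.map fun a' => (a, a', F a a')
  have hE : ∀ e, e ∈ E ↔ ∃ a ∈ L1, ∃ a' ∈ L2, (a, a', F a a') = e := fun e => by
    simp only [E, List.mem_flatMap, List.mem_map]
  let L : List (ℕ × ℕ) := (0 :: L1) ×ˢ (0 :: L2)
  have hL : ∀ x : ℕ × ℕ, x ∈ L ↔ x.1 ∈ 0 :: L1 ∧ x.2 ∈ 0 :: L2 := fun x => List.mem_product
  let Bad : (ℕ → ℕ × ℕ) → Prop := fun g => IP m0 {t | (g t).1 = 0} ∨ IP m0 {t | (g t).2 = 0}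
  have hB : ∀ {α : Type} [Primcodable α], Sig c.N fun (_ : α) g => Bad g := fun {α} _ =>
    (sig_ip m0 (p := fun b : ℕ × ℕ => b.1 = 0) (CE.eq (by fun_prop) (by fun_prop))).or
      (sig_ip m0 (p := fun b : ℕ × ℕ => b.2 = 0) (CE.eq (by fun_prop) (by fun_prop)))
  have hG := sig_good c.σ c.c1 c.c2 c.c3 E (S := S) ⟨hS.1.mono c.le, hS.2⟩
  have hO : Sig c.N fun (x : ℕ × ℕ) g =>
      Bad g ∨ ∃ b', b' ≤ x.2 ∧ Good c.σ c.B1 c.B2 c.B3 E S x.1 b' g :=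
    hB.or (Sig.ex (O := fun (x : ℕ × ℕ) b' g => b' ≤ x.2 ∧ Good c.σ c.B1 c.B2 c.B3 E S x.1 b' g)
      ((Sig.of_ce (CE.le (by fun_prop) (by fun_prop))).and
        (hG.comp (k := fun x : (ℕ × ℕ) × ℕ => (x.1.1, x.2)) (by fun_prop))))
  by_cases hq : ∀ m, ∃ b, ∀ g : ℕ → ℕ × ℕ, (∀ x, g x ∈ L) →
      Bad g ∨ ∃ b', b' ≤ b ∧ Good c.σ c.B1 c.B2 c.B3 E S m b' g
  · obtain ⟨m, b, h1, h2⟩ := c.inv.good i _ (hO.ce_forall (L := fun _ => L) (by fun_prop)) hq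
    obtain ⟨b', h3, ⟨e, η⟩, h4, h5, h6⟩ := (h1 (fun t => (κ1 t, κ2 t))
      fun t => (hL _).2 ⟨a1 t, a2 t⟩).resolve_left fun h => h.elim a3 a4
    obtain ⟨a, ha, a', ha', rfl⟩ := (hE e).1 h4
    obtain ⟨-, G, b1, b2, b3⟩ := a5 a ha a' ha'
    obtain ⟨c', e1, e2⟩ := c.extend (η := η) (h6.mono (fun _ h => h.1) (fun _ h => h.1) fun _ h => h)
      b1 (fun y hy => by
        obtain ⟨-, t, rfl, e⟩ := h6.2.1 y hy
        exact b2 t e)
      (fun y x h hx hy => by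
        obtain ⟨-, t, e, e'⟩ := h6.2.2.1 y x h hx hy
        rw [e]
        exact b3 t e')
    exact ⟨c', e2, Or.inl ⟨m, b', e1 ▸ h5, fun x e3 e4 => h2 x e3 (e4.trans_le h3)⟩⟩
  · simp only [not_forall, not_exists] at hq
    obtain ⟨m, hm⟩ := hq
    obtain ⟨g, h1, h2, h3⟩ := wkl (mono_hyp A) c.inv L
      (O := fun _ g => Bad g ∨ ∃ b, Good c.σ c.B1 c.B2 c.B3 E S m b g)
      (hB.or (Sig.ex (O := fun (_ : Unit) b g => Good c.σ c.B1 c.B2 c.B3 E S m b g)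
        (hG.comp (k := fun x : Unit × ℕ => (m, x.2)) (by fun_prop)))) (by
      by_contra hc
      simp only [not_exists, not_and, not_not] at hc
      obtain ⟨b, hb⟩ := compact_open L
        (fun b g => Bad g ∨ ∃ b', b' ≤ b ∧ Good c.σ c.B1 c.B2 c.B3 E S m b' g)
        (fun u v h huv H => H.imp_right fun ⟨b', h1, h2⟩ => ⟨b', h1.trans huv, h2⟩)
        (fun u h H => hO.loc (a := (m, u)) H)
        (fun g hg => by
          rcases hc g hg with h | ⟨b, h⟩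
          · exact ⟨0, Or.inl h⟩
          · exact ⟨b, Or.inr ⟨b, le_rfl, h⟩⟩)
      obtain ⟨g, h3, h4⟩ := hm b
      exact h4 (hb g h3))
    rw [not_or, not_or, not_exists] at h2
    obtain ⟨a, ha, b1⟩ := exists_colour hs.k1 (fun t => ((hL _).1 (h1 t)).1) h2.1.1
    obtain ⟨a', ha', b2⟩ := exists_colour hs.k2 (fun t => ((hL _).1 (h1 t)).2) h2.1.2
    obtain ⟨b3, -⟩ := a5 a ha a' ha'
    have hg := inM_ad c.N g
    refine ⟨⟨c.σ, F a a', Con1 c.B1 (a, a', F a a') g, Con2 c.B2 (a, a', F a a') g, c.B3, ad c.N g,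
      c.le.trans (le_ad _ _), h3, (c.c1.mono (le_ad _ _)).and ?_, (c.c2.mono (le_ad _ _)).and ?_,
      c.c3.mono (le_ad _ _), ?_, ?_, b3.2.2⟩,
      fun τ h => Val.mono h (fun _ h => h.1) (fun _ h => h.1) fun _ h => h,
      Or.inr ⟨m, fun τ b e1 e2 => h2.2 b ⟨(_, τ), (hE _).2 ⟨a, ha, a', ha', rfl⟩, e2, e1⟩⟩⟩
    · exact CE.exNat (p := fun y t => y = F a a' + t ∧ (g t).1 = a)
        ((CE.eq (by fun_prop) (by fun_prop)).and (CE.eq (by fun_prop) (by fun_prop)))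
    · exact CE.exNat (p := fun y t => y = 2 * F a a' + t ∧ (g t).2 = a')
        ((CE.eq (by fun_prop) (by fun_prop)).and (CE.eq (by fun_prop) (by fun_prop)))
    · filter_upwards [b3.1, b1] with t e1 e2
      exact ⟨e1, t, rfl, e2⟩
    · filter_upwards [b3.2.1, b2] with t e1 e2
      exact ⟨e1, t, rfl, e2⟩

theorem solve (hs : Sys t1 t2 t3) (hM : Inv (Hyp A) M) {B1 B2 B3 : ℕ → Prop} (h1 : CE M B1)
    (h2 : CE M B2) (h3 : CE M B3) (hB : Lg t1 t2 t3 B1 B2 B3 0) :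
    ∃ G : ℕ → Bool, Inv (Hyp A) (ad M G) ∧ Inf G ∧
      (∀ x y, x < y → G x = true → G y = true → B2 (x + y)) ∧
      ∀ x y z, x < y → y < z → G x = true → G y = true → G z = true → B3 (x + y + z) := by
  obtain ⟨k, e, he, he'⟩ := exists_enum (ι := Bool) (β := Bool) hM.count
  let step : ℕ → Cond t1 t2 t3 A M → Cond t1 t2 t3 A M → Prop := fun t c c' =>
    (∀ τ, c'.V τ → c.V τ) ∧ t ≤ c'.σ.length ∧
      ((Hyp A (k t) fun m b => e t m b c'.σ) ∨ ∃ m, ∀ τ b, c'.V τ → ¬ e t m b τ)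
  have hstep : ∀ t c, ∃ c', step t c c' := by
    intro t c
    obtain ⟨c1, a1, a2⟩ := c.pad t
    obtain ⟨c2, a3, a4⟩ := c1.step hs (he t) (k t)
    exact ⟨c2, fun τ h => a2 τ (a3 τ h), a1.trans (a3 _ c2.V_self).1.length_le, a4⟩
  obtain ⟨s, hs0, hs'⟩ := exists_chain step hstep ⟨[], 0, B1, B2, B3, M, Le.refl M, hM, h1, h2, h3, hB⟩
  have hm : ∀ t t', t ≤ t' → ∀ τ, (s t').V τ → (s t).V τ := by
    intro t t' h
    induction h with
    | refl => exact fun _ h => h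
    | step _ ih => exact fun τ h => ih τ ((hs' _).1 τ h)
  obtain ⟨G, hG1, hG2, hG3⟩ := exists_limit (fun t => (s t).σ)
    (fun t => ((hs' t).1 _ (s (t + 1)).V_self).1) fun t => (hs' t).2.1
  have hV : ∀ t, Val [] (s t).σ B1 B2 B3 := fun t => by
    have := hm 0 t (Nat.zero_le _) _ (s t).V_self
    rwa [hs0] at this
  have key : ∀ z, ∀ w ≤ z, G w = true → New [] (s (z + 2)).σ w := fun z w e1 e2 =>
    ⟨Nat.zero_le _, getD_mono (hG3 (z + 1) _ (by omega)) ((pre_getD G (by omega) false).trans e2)⟩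
  refine ⟨G, inv_ad hM.count fun i S hS htot => ?_, fun n => ?_,
    fun x y h a b => (hV _).2.2.1 y x h (key y x h.le a) (key y y le_rfl b),
    fun x y z h h' a b d => (hV _).2.2.2 z y x h' h (key z x (by omega) a) (key z y h'.le b)
      (key z z le_rfl d)⟩
  · obtain ⟨t, rfl, rfl⟩ := he' i S hS
    rcases (hs' t).2.2 with h | ⟨m, h⟩
    · exact mono_hyp A _ _ _ (fun m b h => ⟨b, le_rfl, _, (hG2 (t + 1)).symm ▸ h⟩) h
    · obtain ⟨b, u, hu⟩ := htot m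
      exact absurd (hS.2 _ _ _ _ (hG3 u _ (by omega)) hu)
        (h _ b (hm (t + 1) (max (t + 1) (u + 1)) (le_max_left _ _) _ (s _).V_self))
  · obtain ⟨t, -, ht⟩ := he' true (fun _ _ τ => ∃ y, n ≤ y ∧ τ.getD y false = true)
      ⟨CE.exNat (p := fun (x : ℕ × ℕ × List Bool) y => n ≤ y ∧ x.2.2.getD y false = true)
        ((CE.le (by fun_prop) (by fun_prop)).and (CE.eq (by fun_prop) (by fun_prop))),
        fun _ _ _ _ h ⟨y, a, b⟩ => ⟨y, a, getD_mono h b⟩⟩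
    rcases (hs' t).2.2 with ⟨m, b, h, -⟩ | ⟨m, h⟩
    · rw [ht] at h
      obtain ⟨y, a, b⟩ := h
      exact ⟨y, a, (hG1 (t + 1) y (lt_of_getD b)).trans b⟩
    · obtain ⟨τ, a, b⟩ := (s (t + 1)).grow hs n
      exact absurd (by rw [ht]; exact b) (h τ 0 a)

end Pool.Agent.H60Z.HTn
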