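import Pool.Agent.H60Z.HTn.F

/-!
The stable colouring and the final class.
-/

set_option autoImplicit false

open Filter

namespace Pool.Agent.H60Z.HTn

open Pool.Agent.H362Z.PRT Pool.Agent.H362Z.EM

theorem exists_stable {M : SA} (hM : M.S.Countable) : ∃ (G : ℕ → List Bool) (A : ℕ → Bool),
    Inv (Hyp A) (ad M G) ∧ ∀ x, ∃ n, ∀ y, n ≤ y → (G y).getD x false = A x := by
  obtain ⟨k, e, he, he'⟩ := exists_enum (ι := Bool) (β := List Bool) hM
  let C := List (List Bool) × List Bool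
  let step : ℕ → C → C → Prop := fun t c c' => H362Z.EM.Ext c.1 c.2 c'.1 ∧ c.2 <+: c'.2 ∧
    t ≤ c'.1.length ∧ t ≤ c'.2.length ∧ ((∃ m, ∀ τ b, H362Z.EM.Ext c'.1 c'.2 τ → ¬ e t m b τ) ∨
      ∃ m b, e t m b c'.1 ∧ b ≤ c'.2.length ∧ ∀ x, m ≤ x → x < b → c'.2.getD x false = k t)
  have hstep : ∀ t c, ∃ c', step t c c' := by
    rintro t ⟨σ, g⟩
    obtain ⟨σ1, h1, h2⟩ := exists_ext σ g t
    let g' : ℕ → List Bool := fun b =>
      pre (fun x => if x < g.length then g.getD x false else k t) (max (max b t) g.length)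
    have hg : ∀ b, g <+: g' b := fun b => prefix_pre g false _ (le_max_right _ _)
    have hl : ∀ b, b ≤ (g' b).length ∧ t ≤ (g' b).length := fun b => by
      simp only [g', length_pre]; omega
    by_cases H : ∃ τ b, H362Z.EM.Ext σ1 g τ ∧ e t g.length b τ
    · obtain ⟨τ, b, h3, h4⟩ := H
      refine ⟨(τ, g' b), h1.trans h3 (List.prefix_refl _), hg b, h2.trans h3.1.length_le, (hl b).2,
        Or.inr ⟨_, b, h4, (hl b).1, fun x e1 e2 => ?_⟩⟩
      simp only [g']
      rw [pre_getD _ (by omega), if_neg (not_lt.2 e1)]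
    · exact ⟨(σ1, g' 0), h1, hg 0, h2, (hl 0).2, Or.inl ⟨_, fun τ b h3 h4 =>
        H ⟨τ, b, (H362Z.EM.Ext.refl σ1 g).trans h3 (hg 0), h4⟩⟩⟩
  obtain ⟨s, -, hs⟩ := exists_chain step hstep ([], [])
  obtain ⟨G, hG1, hG2, hG3⟩ := exists_lim [] (fun t => (s t).1) (fun t => (hs t).1.1)
    fun t => (hs t).2.2.1
  obtain ⟨A, hA, -, -⟩ := exists_lim false (fun t => (s t).2) (fun t => (hs t).2.1)
    fun t => (hs t).2.2.2.1
  have hm : ∀ t t', t ≤ t' → H362Z.EM.Ext (s t).1 (s t).2 (s t').1 ∧ (s t).2 <+: (s t').2 := by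
    intro t t' h
    induction h with
    | refl => exact ⟨H362Z.EM.Ext.refl _ _, List.prefix_refl _⟩
    | step _ ih => exact ⟨ih.1.trans (hs _).1 ih.2, ih.2.trans (hs _).2.1⟩
  refine ⟨G, A, inv_ad hM fun i S hS htot => ?_, fun x => ⟨(s (x + 2)).1.length, fun y hy => ?_⟩⟩
  · obtain ⟨t, rfl, rfl⟩ := he' i S hS
    rcases (hs t).2.2.2.2 with ⟨m, h⟩ | ⟨m, b, h1, h2, h3⟩
    · obtain ⟨b, u, hu⟩ := htot m
      exact absurd (hS.2 _ _ _ _ (hG3 u _ (by omega)) hu)
        (h _ b (hm (t + 1) (max (t + 1) (u + 1)) (le_max_left _ _)).1)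
    · exact ⟨m, b, ⟨_, (hG2 (t + 1)).symm ▸ h1⟩, fun x e1 e2 =>
        (hA (t + 1) x (e2.trans_le h2)).trans (h3 x e1 e2)⟩
  · have h1 : x < (s (x + 2)).2.length := (hs (x + 1)).2.2.2.1
    have h2 : y < (s (x + y + 1 + 1)).1.length := by
      have := (hs (x + y + 1)).2.2.1
      omega
    rw [hG1 _ y h2, hA _ x h1]
    exact getD_prefix ((hm (x + 2) _ (by omega)).1.2 y hy h2) h1 false

/-- homogeneous sets for sums of two and of three elements exist -/
def Solved (T : ℕ × ℕ → Bool) (N : SA) : Prop :=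
  (∃ k, ∀ x, ∃ i < k, T (x, i) = true) → ∃ G : ℕ → Bool, InM N G ∧ Inf G ∧
    (∃ i, ∀ x y, x < y → G x = true → G y = true → T (x + y, i) = true) ∧
    ∃ i, ∀ x y z, x < y → y < z → G x = true → G y = true → G z = true → T (x + y + z, i) = true

theorem exists_model : ∃ (N : SA) (f : ℕ × ℕ → Bool), InM N f ∧ (∀ T, InM N T → Solved T N) ∧
    ∀ H : ℕ → Bool, InM N H → Inf H → ∀ i, ∃ x y, x < y ∧ H x = true ∧ H y = true ∧
      f (x, y) = i := by
  obtain ⟨t1, t2, t3, hs⟩ := exists_sys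
  obtain ⟨G, A, hG, hA⟩ := exists_stable countable_base
  obtain ⟨N, h1, h2, h3⟩ := exists_closure (P := Solved)
    (fun T N N' h H hk => by
      obtain ⟨G, h1, h2⟩ := H hk
      exact ⟨G, h1.mono h, h2⟩)
    (fun T N hN hT => by
      by_cases hk : ∃ k, ∀ x, ∃ i < k, T (x, i) = true
      swap
      · exact ⟨N, Le.refl N, hN, fun h => absurd h hk⟩
      obtain ⟨k, hk⟩ := hk
      have key : ∀ p : Ultrafilter ℕ, ∃ i, ∀ᶠ x : ℕ in p, T (x, i) = true := by
        intro p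
        choose κ e1 e2 using hk
        obtain ⟨a, -, h⟩ := (p.map κ).eq_pure_of_finite_mem (Set.finite_lt_nat k)
          (Ultrafilter.mem_map.2 (univ_mem' e1))
        have h3 : {t | κ t = a} ∈ p := by
          have : ({a} : Set ℕ) ∈ p.map κ := by rw [h]; simp
          exact this
        exact ⟨a, mem_of_superset h3 fun t ht => by rw [← show κ t = a from ht]; exact e2 t⟩
      obtain ⟨i, hi⟩ := key t2
      obtain ⟨j, hj⟩ := key t3
      obtain ⟨G, h1, h2, h3, h4⟩ := solve hs hN (B1 := fun _ => True)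
        (B2 := fun x => T (x, i) = true) (B3 := fun x => T (x, j) = true) (CE.const _)
        (CE.eq (by fun_prop) (by fun_prop)) (CE.eq (by fun_prop) (by fun_prop))
        ⟨Eventually.of_forall fun _ => trivial, by simpa [Sh] using hi, by simpa [Sh] using hj⟩
      exact ⟨ad N G, le_ad N G, h1, fun _ => ⟨G, inM_ad N G, h2, ⟨i, h3⟩, j, h4⟩⟩) hG
  have hGN : InM N G := (inM_ad base G).mono h1
  refine ⟨N, fun x => (G x.2).getD x.1 false, by fun_prop, h3, fun H hH hH' i => ?_⟩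
  obtain ⟨m, b, ⟨x, e1, e2, e3⟩, e4⟩ := h2.good i (fun m b => ∃ x, m ≤ x ∧ x < b ∧ H x = true)
    (CE.exNat (p := fun (y : ℕ × ℕ) x => y.1 ≤ x ∧ x < y.2 ∧ H x = true)
      ((CE.le (by fun_prop) (by fun_prop)).and ((CE.lt (by fun_prop) (by fun_prop)).and
        (CE.eq (by fun_prop) (by fun_prop)))))
    (fun m => by
      obtain ⟨y, e1, e2⟩ := hH' m
      exact ⟨y + 1, y, e1, Nat.lt_succ_self y, e2⟩)
  obtain ⟨n, hn⟩ := hA x
  obtain ⟨y, e5, e6⟩ := hH' (max n (x + 1))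
  exact ⟨x, y, by omega, e3, e6, (hn y (by omega)).trans (e4 x e1 e2)⟩

lemma exists_list {X : Set ℕ} (hX : X.Infinite) (r : ℕ) : ∀ y, ∃ l : List ℕ, l.length = r ∧
    l.Pairwise (· < ·) ∧ ∀ x ∈ l, x ∈ X ∧ y < x := by
  induction r with
  | zero => exact fun _ => ⟨[], rfl, List.Pairwise.nil, by simp⟩
  | succ r ih =>
    intro y
    obtain ⟨z, h1, h2⟩ := hX.exists_gt y
    obtain ⟨l, h3, h4, h5⟩ := ih z
    refine ⟨z :: l, by simp [h3], List.Pairwise.cons (fun x hx => (h5 x hx).2) h4, fun x hx => ?_⟩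
    rcases List.mem_cons.1 hx with rfl | hx
    · exact ⟨h1, h2⟩
    · exact ⟨(h5 x hx).1, h2.trans (h5 x hx).2⟩

lemma dec_pairwise (N : SA) : Dec N fun l : List ℕ => l.Pairwise (· < ·) := by
  have : Dec N fun l : List ℕ => ∀ j < l.length, ∀ i < j, l.getD i 0 < l.getD j 0 :=
    Dec.ball (p := fun (l : List ℕ) j => ∀ i < j, l.getD i 0 < l.getD j 0) (by fun_prop)
      (Dec.ball (p := fun (x : List ℕ × ℕ) i => x.1.getD i 0 < x.1.getD x.2 0) (by fun_prop)
        (Dec.lt (by fun_prop) (by fun_prop)))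
  refine this.of_iff fun l => ?_
  rw [List.pairwise_iff_getElem]
  refine ⟨fun h i j hi hj e => ?_, fun h j hj i e => ?_⟩
  · have := h j hj i e
    rwa [List.getD_eq_getElem _ _ hi, List.getD_eq_getElem _ _ hj] at this
  · rw [List.getD_eq_getElem _ _ (e.trans hj), List.getD_eq_getElem _ _ hj]
    exact h i j _ hj e

end Pool.Agent.H60Z.HTn
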